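import Mathlib

/-!
# Project KH (MP_20ee5e_ag): THEOREM H, goals

THEOREM H (helper65). `N = n + 1 ≥ 4`, `V` convenient, no coordinate of a `v ∈ V` is `1`: `N! genus V < newtonNumber V`. For ALL `n ≥ 3`.
Algebraic proof: `L_i = x_i ∂f/∂x_i`, `f = ∑ x^v`, in `ℚ[x]`, all dimensions of quotients are taken modulo the ideal `mm M` of the monomials of
degree `≥ M` (`dq Q M`); `M → ∞` (the local ring at the origin).
RULES: prove `theorem t : S_XX` in a file of your own (goals listed as USES are arguments `(h : S_YY)`). If a statement is false as it stands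
(corner cases: `ι` empty ...), mail helper65 at once. This file imports only Mathlib.
-/

set_option autoImplicit false

open MvPolynomial MeasureTheory

namespace Pool.Agent.Helper65.KH

/-! ## Definitions: algebra -/

/-- the monomial `x^p` -/
noncomputable def mon {ι : Type} [Fintype ι] (p : ι → ℕ) : MvPolynomial ι ℚ := ∏ i, X i ^ p i

/-- the ideal generated by the monomials of degree at least `M` -/
noncomputable def mm (ι : Type) [Fintype ι] (M : ℕ) : Ideal (MvPolynomial ι ℚ) :=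
  Ideal.span {f | ∃ p : ι → ℕ, M ≤ ∑ i, p i ∧ f = mon p}

/-- the dimension of the quotient by `Q`, modulo the monomials of degree at least `M` -/
noncomputable def dq {ι : Type} [Fintype ι] (Q : Ideal (MvPolynomial ι ℚ)) (M : ℕ) : ℕ :=
  Module.finrank ℚ (MvPolynomial ι ℚ ⧸ (Q ⊔ mm ι M))

/-- the ideal of a system -/
noncomputable def idl {ι κ : Type} (H : κ → MvPolynomial ι ℚ) : Ideal (MvPolynomial ι ℚ) := Ideal.span (Set.range H)

/-- `a` is a nonzerodivisor modulo `Q`, in the local sense -/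
def Nz {ι : Type} [Fintype ι] (Q : Ideal (MvPolynomial ι ℚ)) (a : MvPolynomial ι ℚ) : Prop :=
  ∀ M' : ℕ, ∃ M : ℕ, ∀ f : MvPolynomial ι ℚ, a * f ∈ Q ⊔ mm ι M → f ∈ Q ⊔ mm ι M'

/-- regular in all orders -/
def RS {ι : Type} [Fintype ι] (H : ι → MvPolynomial ι ℚ) : Prop :=
  ∀ (T : Finset ι) (i : ι), i ∉ T → Nz (Ideal.span (H '' (T : Set ι))) (H i)

/-! ## Definitions: polyhedra -/

/-- scalar product -/
def dt {ι : Type} [Fintype ι] (w x : ι → ℝ) : ℝ := ∑ i, w i * x i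

/-- an exponent as a real vector -/
def cv {ι : Type} (v : ι → ℕ) : ι → ℝ := fun i => (v i : ℝ)

/-- the dual polyhedron -/
def LL {ι : Type} [Fintype ι] (V : Finset (ι → ℕ)) : Set (ι → ℝ) := {w | ∀ v ∈ V, 1 ≤ dt w (cv v)}

/-- the region under the diagram -/
def KK {ι : Type} [Fintype ι] (V : Finset (ι → ℕ)) : Set (ι → ℝ) := {x | 0 ≤ x ∧ ∃ w ∈ LL V, dt w x < 1}

/-- convenient, without `0` -/
def Cn {ι : Type} [DecidableEq ι] (V : Finset (ι → ℕ)) : Prop :=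
  (0 : ι → ℕ) ∉ V ∧ ∀ i, ∃ m : ℕ, 0 < m ∧ (Pi.single i m : ι → ℕ) ∈ V

/-- general position: exponents in a common hyperplane `⟨w, v⟩ = 1` are linearly independent -/
def GP {ι : Type} [Fintype ι] (V : Finset (ι → ℕ)) : Prop :=
  ∀ (w : ι → ℝ) (U : Finset (ι → ℕ)), U ⊆ V → (∀ u ∈ U, dt w (cv u) = 1) →
    LinearIndependent ℝ (fun u : U => cv (u : ι → ℕ))

/-- all nonzero coordinates are at least `D` -/
def Th {ι : Type} (V : Finset (ι → ℕ)) (D : ℕ) : Prop := ∀ v ∈ V, ∀ i, v i ≠ 0 → D ≤ v i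

/-- `L_i = x_i ∂f/∂x_i` -/
noncomputable def Lp {ι : Type} [Fintype ι] (V : Finset (ι → ℕ)) (i : ι) : MvPolynomial ι ℚ :=
  ∑ v ∈ V, (v i : ℚ) • mon v

/-- `g_i`, with `L_i = x_i ^ D g_i` -/
noncomputable def gp {ι : Type} [Fintype ι] [DecidableEq ι] (V : Finset (ι → ℕ)) (D : ℕ) (i : ι) :
    MvPolynomial ι ℚ :=
  ∑ v ∈ V, (v i : ℚ) • mon (fun k => if k = i then v k - D else v k)

/-- the exponents in the coordinate subspace of `I` -/
def res {ι : Type} [DecidableEq ι] [Fintype ι] (V : Finset (ι → ℕ)) (I : Finset ι) : Finset (I → ℕ) :=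
  (V.filter fun v => ∀ j, j ∉ I → v j = 0).image fun v (i : I) => v i

/-- `θ` is a generic shift -/
def Gd {ι : Type} [Fintype ι] (V : Finset (ι → ℕ)) (θ : ι → ℝ) : Prop := (∀ i, 0 < θ i ∧ θ i < 1) ∧
  ∀ U : Finset (ι → ℕ), U ⊆ V → U.card < Fintype.card ι → ∀ (p : ι → ℤ) (l : (ι → ℕ) → ℝ),
    ¬ ∀ i, (p i : ℝ) + θ i = ∑ u ∈ U, l u * (u i : ℝ)

/-- `σ` is the cell of `p + θ`, `l` the coordinates of `p + θ`, `w` the normal of the cell -/
structure Cell {ι : Type} [Fintype ι] (V : Finset (ι → ℕ)) (θ : ι → ℝ) (p : ι → ℕ) (σ : Finset (ι → ℕ))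
    (l : (ι → ℕ) → ℝ) (w : ι → ℝ) : Prop where
  sub : σ ⊆ V
  card : σ.card = Fintype.card ι
  pos : ∀ u ∈ σ, 0 < l u
  eq : ∀ i, (p i : ℝ) + θ i = ∑ u ∈ σ, l u * (u i : ℝ)
  one : ∀ u ∈ σ, dt w (cv u) = 1
  gt : ∀ v ∈ V, v ∉ σ → 1 < dt w (cv v)

/-- the support function -/
noncomputable def rr {ι : Type} [Fintype ι] (V : Finset (ι → ℕ)) (x : ι → ℝ) : ℝ :=
  sInf ((fun w => dt w x) '' LL V)

/-- the degree of `x^p` -/
noncomputable def dg {ι : Type} [Fintype ι] (V : Finset (ι → ℕ)) (θ : ι → ℝ) (p : ι → ℕ) : ℝ :=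
  rr V (fun i => (p i : ℝ) + θ i)

/-- the ideal generated by the monomials of degree (`dg`) at least `t` -/
noncomputable def fl {ι : Type} [Fintype ι] (V : Finset (ι → ℕ)) (θ : ι → ℝ) (t : ℝ) : Ideal (MvPolynomial ι ℚ) :=
  Ideal.span {f | ∃ p : ι → ℕ, t ≤ dg V θ p ∧ f = mon p}

/-- the same, greater than `t` -/
noncomputable def fls {ι : Type} [Fintype ι] (V : Finset (ι → ℕ)) (θ : ι → ℝ) (t : ℝ) : Ideal (MvPolynomial ι ℚ) :=
  Ideal.span {f | ∃ p : ι → ℕ, t < dg V θ p ∧ f = mon p}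

/-! ## Goals: algebra -/

/-- FD. PROOF. The quotient is spanned by the classes of the finitely many monomials of degree `< M`. -/
def S_FD : Prop := ∀ (ι : Type) [Fintype ι] [DecidableEq ι] (Q : Ideal (MvPolynomial ι ℚ)) (M : ℕ),
  Module.Finite ℚ (MvPolynomial ι ℚ ⧸ (Q ⊔ mm ι M))

/-- MO. USES: FD. PROOF. `Q ⊔ mm M ≤ Q' ⊔ mm M'`, so the second quotient is a quotient of the first. -/
def S_MO : Prop := ∀ (ι : Type) [Fintype ι] [DecidableEq ι] (Q Q' : Ideal (MvPolynomial ι ℚ)) (M M' : ℕ),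
  Q ≤ Q' → M' ≤ M → dq Q' M' ≤ dq Q M

/-- SA. Subadditivity. USES: FD. PROOF. `f ↦ a f` maps onto `((a) + Q + mm)/((ab) + Q + mm)`, and kills `(b) + Q + mm`. -/
def S_SA : Prop := ∀ (ι : Type) [Fintype ι] [DecidableEq ι] (Q : Ideal (MvPolynomial ι ℚ))
  (a b : MvPolynomial ι ℚ) (M : ℕ),
  dq (Ideal.span {a * b} ⊔ Q) M ≤ dq (Ideal.span {a} ⊔ Q) M + dq (Ideal.span {b} ⊔ Q) M

/-- ST. Stabilisation. USES: FD, MO.
PROOF. `dq Q 0 = 0`; if `dq Q j < dq Q (j+1)` for all `j < M` then `dq Q M ≥ M > n`. So `dq Q j = dq Q (j+1)` for some `j < M`, and then `Q ⊔ mm j = Q ⊔ mm (j+1)` (same finite dimension),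
`mm j ≤ Q ⊔ mm (j+1)`. Multiply by `mm (k-j)`: `mm k ≤ Q ⊔ mm (k+1)` for all `k ≥ j`, so `dq Q k = dq Q j` for all `k ≥ j`. -/
def S_ST : Prop := ∀ (ι : Type) [Fintype ι] [DecidableEq ι] (Q : Ideal (MvPolynomial ι ℚ)) (M n : ℕ),
  dq Q M ≤ n → n < M → ∀ M' : ℕ, dq Q M' ≤ n

/-- EX. Expansion of products. USES: FD, SA. PROOF. Iterate SA over the factors and the places (induction; `dq ⊤ M = 0` for the empty product). Suggestion: first for one place (`Function.update H i (∏ l ∈ s, b l)`,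
induction on `s`), then for a finset of places, `Fintype.piFinset` or `Finset.prod_univ_sum`-like bookkeeping (`Fintype.sum_equiv`, `Finset.sum_comm`). -/
def S_EX : Prop := ∀ (ι : Type) [Fintype ι] [DecidableEq ι] (Λ : Type) [Fintype Λ] [DecidableEq Λ]
  (a : ι → Λ → MvPolynomial ι ℚ) (M : ℕ),
  dq (idl fun j => ∏ l, a j l) M ≤ ∑ φ : ι → Λ, dq (idl fun j => a j (φ j)) M

/-- PW. Powers. USES: FD. PROOF. `N = card ι`. Induction on `k`: `J^k + mm / J^(k+1) + mm` is the sum of the images of the maps `f ↦ f ∏ H_i^(α_i)`, `∑ α = k`, which kill `J + mm`; the number of these `α` is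
`C(k+N-1, N-1)` (`Finset.piAntidiag`, `Finset.card_piAntidiag` or `Sym.card_sym_eq_choose`), and `C(k+N-1, N) + C(k+N-1, N-1) = C(k+N, N)`. (`J^k` is the sum of the `(∏ H_i^(α_i))`.) -/
def S_PW : Prop := ∀ (ι : Type) [Fintype ι] [DecidableEq ι] (H : ι → MvPolynomial ι ℚ) (M k : ℕ),
  dq (idl H ^ k) M ≤ (k + Fintype.card ι - 1).choose (Fintype.card ι) * dq (idl H) M

/-- LC. Counting monomials. USES: FD. PROOF. The classes of the `mon p`, `p ∈ F`, are linearly independent: an element of `Q ⊔ mm M` is `f + g` with all exponents of `f` in `U` and all exponents of `g` of degree `≥ M`. -/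
def S_LC : Prop := ∀ (ι : Type) [Fintype ι] [DecidableEq ι] (Q : Ideal (MvPolynomial ι ℚ)) (U : Set (ι → ℕ)) (M : ℕ)
  (F : Finset (ι → ℕ)), (∀ f ∈ Q, ∀ p ∈ f.support, (fun i => p i) ∈ U) → (∀ p ∈ F, p ∉ U ∧ ∑ i, p i < M) →
    F.card ≤ dq Q M

/-- F2. The lower bound by the covolume. USES: PW, LC.
PROOF. `N = card ι`, `J = idl H`. All exponents of elements of `J^k` (`k ≥ 1`) are in `U = {p | p / k ∈ P}` (convexity for a product of `k` elements, then upper set). By LC and PW every finite set of `p ∉ U` has at most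
`C(k+N-1, N) n` elements, so this is the bound for the number of all of them. `{x | 0 ≤ x, x / k ∉ P}` is covered by the cubes `p + [0,1)^N`, `p / k ∉ P` (`p = floor x`, upper set). So `k^N volume {x ≥ 0, x ∉ P} ≤ C(k+N-1, N) n`
(`Measure.addHaar_smul`), and `N! C(k+N-1, N) / k^N → 1`. -/
def S_F2 : Prop := ∀ (ι : Type) [Fintype ι] [DecidableEq ι] (H : ι → MvPolynomial ι ℚ) (P : Set (ι → ℝ)) (n : ℕ),
  Convex ℝ P → (∀ x ∈ P, ∀ y, x ≤ y → y ∈ P) → (∀ j, ∀ p ∈ (H j).support, (fun i => (p i : ℝ)) ∈ P) →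
  (∀ M, dq (idl H) M ≤ n) → (((Fintype.card ι).factorial : ℕ) : ENNReal) * volume {x : ι → ℝ | 0 ≤ x ∧ x ∉ P} ≤ n

/-- SC1. Semicontinuity. USES: FD.
PROOF. `W` = the quotient by `mm M` (finite dimension, `FD` with `Q = ⊥`). The image of `Q(t)` in `W` is spanned by the `mon p · H_j(t)`. At `t0` it has dimension `≥ r = dim W - d`; take `r` linearly independent ones and a linear map
`W → ℚ^r` which is an isomorphism on their span; `P(t)` = the determinant of the images of the same `r` products (polynomial in `t`). -/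
def S_SC1 : Prop := ∀ (ι : Type) [Fintype ι] [DecidableEq ι] (κ : Type) [Fintype κ] [DecidableEq κ]
  (R : ι → κ → MvPolynomial ι ℚ) (M d : ℕ) (t0 : κ → ℚ), dq (idl fun j => ∑ k, t0 k • R j k) M ≤ d →
    ∃ P : MvPolynomial κ ℚ, MvPolynomial.eval t0 P ≠ 0 ∧
      ∀ t : κ → ℚ, MvPolynomial.eval t P ≠ 0 → dq (idl fun j => ∑ k, t k • R j k) M ≤ d

/-- SC. USES: SC1. PROOF. The product of the polynomials `P_φ` is not zero, so it has a point with nonzero value (`MvPolynomial.funext`). -/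
def S_SC : Prop := ∀ (ι : Type) [Fintype ι] [DecidableEq ι] (κ : Type) [Fintype κ] [DecidableEq κ]
  (Φ : Type) [Fintype Φ] (R : Φ → ι → κ → MvPolynomial ι ℚ) (M : ℕ) (d : Φ → ℕ) (t0 : Φ → κ → ℚ),
  (∀ φ, dq (idl fun j => ∑ k, t0 φ k • R φ j k) M ≤ d φ) →
    ∃ t : κ → ℚ, ∀ φ, dq (idl fun j => ∑ k, t k • R φ j k) M ≤ d φ

/-- RA. Factors of a regular system. PROOF. One place `i0` at a time (induction over a finset of places): let `H i0 = a b`, `H'` the system with `a` at `i0`. (1) `i0 ∉ T`, `i ≠ i0`: the same. (2) `i = i0 ∉ T`: `a f ∈ (H_T) + mm M` gives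
`a b f ∈ (H_T) + mm M`. (3) `T = {i0} ∪ T'`, `i ≠ i0`: `H_i f = a u + r`, `r ∈ (H_T') + mm M`; then `H_i (b f) ∈ (ab) + (H_T') + mm M`, so `b f = a b v + r'`, `r' ∈ (H_T') + mm M1`; `a b (f - a v) ∈ (H_T') + mm M1`, so
`f - a v ∈ (H_T') + mm M'`. -/
def S_RA : Prop := ∀ (ι : Type) [Fintype ι] [DecidableEq ι] (H a : ι → MvPolynomial ι ℚ),
  RS H → (∀ j, a j ∣ H j) → RS a

/-- RB. Superadditivity. USES: FD, MO, RA. PROOF. `Q` = the ideal of the `H_j`, `j ≠ i`; `a` is a nonzerodivisor modulo `Q` (RA, `T = univ.erase i`). `a f ∈ (ab) + Q + mm M` gives `a (f - b h) ∈ Q + mm M`, `f ∈ (b) + Q + mm M'`. So the dimension of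
`((a) + Q + mm M)/((ab) + Q + mm M)` is at least `dq ((b) + Q) M'`. (`M ≥ M'`.) -/
def S_RB : Prop := ∀ (ι : Type) [Fintype ι] [DecidableEq ι] (H : ι → MvPolynomial ι ℚ) (i : ι)
  (a b : MvPolynomial ι ℚ), RS H → H i = a * b → ∀ M' : ℕ, ∃ M : ℕ,
    dq (idl (Function.update H i a)) M' + dq (idl (Function.update H i b)) M' ≤ dq (idl H) M

/-- EQ. Expansion from below. USES: FD, MO, RA, RB. PROOF. Iterate RB (all intermediate systems are regular by RA), bookkeeping as in EX. -/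
def S_EQ : Prop := ∀ (ι : Type) [Fintype ι] [DecidableEq ι] (Λ : Type) [Fintype Λ] [DecidableEq Λ]
  (a : ι → Λ → MvPolynomial ι ℚ), RS (fun j => ∏ l, a j l) → ∀ M' : ℕ, ∃ M : ℕ,
    ∑ φ : ι → Λ, dq (idl fun j => a j (φ j)) M' ≤ dq (idl fun j => ∏ l, a j l) M

/-! ## Goals: cells -/

/-- TH. A generic shift exists. PROOF. `τ ∈ (0,1)` transcendental, `e : ι ≃ Fin N`, `θ_i = τ^(e i + 1)`: `∑ a_i θ_i ∉ ℤ` for all integral `a ≠ 0`. If `p + θ = ∑ l_u u`, `u ∈ U`, `|U| < N`: there is an integral vector `a ≠ 0` with `⟨a, u⟩ = 0` for all `u ∈ U`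
(more unknowns than equations, over `ℚ`, clear denominators), so `∑ a_i (p_i + θ_i) = 0`. -/
def S_TH : Prop := ∀ (ι : Type) [Fintype ι] [DecidableEq ι] (V : Finset (ι → ℕ)), ∃ θ : ι → ℝ, Gd V θ

/-- CE. Every point has a cell.
PROOF. `x = p + θ > 0`. `LL V` is closed, contains `(1,...,1)`, `w_j ≥ 1/m_j` on it (`m_j e_j ∈ V`); so `w ↦ ⟨w, x⟩` has a minimum on it (compact sublevel sets). Take a minimiser `w` for which the active set `A(w) = {v ∈ V | ⟨w, v⟩ = 1}` has the largest number of elements.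
`A(w)` spans: otherwise `z ≠ 0`, `z ⊥ A(w)`, with a negative coordinate (`± z`); `⟨z, x⟩ = 0` (else `w ± εz` is better); let `T` be the largest `t` with `w + t z ∈ LL V` (it exists as `w_j + t z_j ≥ 1/m_j`): `w + T z` is a minimiser with a larger active set.
By GP `A(w)` is a basis `σ`. `x = ∑ l_u u`. `l_u ≥ 0`: take `z` with `⟨z, u⟩ = 1`, `⟨z, u'⟩ = 0` for the other `u' ∈ σ`; `w + εz ∈ LL V` for small `ε > 0`, so `l_u = ⟨z, x⟩ ≥ 0`. `l_u ≠ 0` by `Gd` (`U = σ` without `u`). -/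
def S_CE : Prop := ∀ (ι : Type) [Fintype ι] [DecidableEq ι] (V : Finset (ι → ℕ)) (θ : ι → ℝ), Cn V → GP V →
  Gd V θ → ∀ p : ι → ℕ, ∃ (σ : Finset (ι → ℕ)) (l : (ι → ℕ) → ℝ) (w : ι → ℝ), Cell V θ p σ l w

/-- DG. Facts about cells. USES: CE (for the last one).
PROOF. (1) `w ∈ LL V`, `⟨w, p + θ⟩ = ∑ l_u`, and `⟨w', p + θ⟩ = ∑ l_u ⟨w', u⟩ ≥ ∑ l_u` for `w' ∈ LL V`. (2) `⟨w', p + θ⟩ = dg = ∑ l_u ⟨w', u⟩`, so `⟨w', u⟩ = 1` for `u ∈ σ`, `σ ⊆ σ'` by `gt`; equal by `card`; `l = l'` by linear independence (GP). (3) Clear.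
(4) `l' = update l u (l u - 1) ≥ 0`, `p_i + θ_i - u_i = ∑ l'_u' u'_i ≥ 0`, `θ_i < 1`, so `u_i ≤ p_i`; `l u ≠ 1` by `Gd` (`U = σ.erase u`). (5) The cell `(σ', l', w')` of `p + v` (CE): `dg (p+v) = ⟨w', p + θ⟩ + ⟨w', v⟩ ≥ dg p + 1`; equality gives `⟨w', u⟩ = 1` for all `u ∈ σ`
and `⟨w', v⟩ = 1`, so `σ ∪ {v} ⊆ σ'`, too many elements. -/
def S_DG : Prop := ∀ (ι : Type) [Fintype ι] [DecidableEq ι] (V : Finset (ι → ℕ)) (θ : ι → ℝ), Cn V → GP V →
  Gd V θ → ∀ (p : ι → ℕ) (σ : Finset (ι → ℕ)) (l : (ι → ℕ) → ℝ) (w : ι → ℝ), Cell V θ p σ l w →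
    dg V θ p = ∑ u ∈ σ, l u ∧
    (∀ (σ' : Finset (ι → ℕ)) (l' : (ι → ℕ) → ℝ) (w' : ι → ℝ), Cell V θ p σ' l' w' → σ = σ' ∧ ∀ u ∈ σ, l u = l' u) ∧
    (∀ u ∈ σ, Cell V θ (p + u) σ (Function.update l u (l u + 1)) w) ∧
    (∀ u ∈ σ, 1 ≤ l u → (∀ i, u i ≤ p i) ∧ Cell V θ (p - u) σ (Function.update l u (l u - 1)) w) ∧
    (∀ v ∈ V, v ∉ σ → dg V θ p + 1 < dg V θ (p + v))

/-- BJ. The box and the bijection. USES: CE, DG.
PROOF. `Box` = the `p` with `l u < 1` for all `u` in the cell of `p` (finite: `p_i ≤ ∑_{u ∈ V} u_i`). For `b ∈ Box` with cell `σ` choose a bijection `e : ι ≃ σ` and put `G b a = b + ∑ i, a i • e i`; by DG (3) its cell is `σ` with coordinates `l + a`. Injective: the cell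
of `G b a` is unique, its coordinates are `l_u + a_u` with `0 < l_u < 1` and `a_u` natural, so `a_u` is determined (floor), and then `b`. Onto: subtract `u ∈ σ` as long as `l u ≥ 1` (DG (4)). -/
def S_BJ : Prop := ∀ (ι : Type) [Fintype ι] [DecidableEq ι] (V : Finset (ι → ℕ)) (θ : ι → ℝ), Cn V → GP V →
  Gd V θ → ∃ (Box : Finset (ι → ℕ)) (G : (ι → ℕ) → (ι → ℕ) → (ι → ℕ)),
    (∀ b ∈ Box, ∀ a, dg V θ (G b a) = dg V θ b + ∑ i, (a i : ℝ)) ∧ (∀ b ∈ Box, G b 0 = b) ∧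
    (∀ b ∈ Box, ∀ b' ∈ Box, ∀ a a', G b a = G b' a' → b = b' ∧ a = a') ∧ (∀ p, ∃ b ∈ Box, ∃ a, G b a = p) ∧
    (∀ p, p ∉ Box → ∃ (σ : Finset (ι → ℕ)) (l : (ι → ℕ) → ℝ) (w : ι → ℝ), Cell V θ p σ l w ∧ ∃ u ∈ σ, 1 ≤ l u)

/-- FN. Elementary facts about the degree. PROOF. For `w ∈ LL V`: `w_j ≥ 1/m_j > 0` (`m_j e_j ∈ V`), so `⟨w, x⟩ ≥ c ∑ x_j` for `x ≥ 0` with `c = min 1/m_j`; and `(1,...,1) ∈ LL V` (a nonzero natural vector). Monotone: `w ≥ 0` on `LL V`. -/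
def S_FN : Prop := ∀ (ι : Type) [Fintype ι] [DecidableEq ι] (V : Finset (ι → ℕ)) (θ : ι → ℝ), Cn V →
  (∀ i, 0 < θ i) → (∀ t : ℝ, {p : ι → ℕ | dg V θ p < t}.Finite) ∧
    (∃ c : ℝ, 0 < c ∧ ∀ p : ι → ℕ, c * ∑ i, (p i : ℝ) ≤ dg V θ p) ∧
    (∀ p : ι → ℕ, dg V θ p ≤ ∑ i, ((p i : ℝ) + θ i)) ∧ ∀ p q : ι → ℕ, dg V θ p ≤ dg V θ (p + q)

/-- SP1. The reduction step. USES: DG.
PROOF. `σ` is a basis of `ℝ^ι` of integral vectors, so there is `a : ι → ℚ` with `∑ a_i u_i = 1`, `∑ a_i u'_i = 0` for the other `u' ∈ σ`. `q = p - u`. `(∑ a_i L_i) mon q = ∑_v ⟨a, v⟩ mon (q + v) = mon p + ∑_{v ∉ σ} ⟨a, v⟩ mon (q + v)`, and `dg (q + v) > dg q + 1 = dg p`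
for `v ∉ σ` (DG (5) and (1) for the cell of `q`, DG (4)). -/
def S_SP1 : Prop := ∀ (ι : Type) [Fintype ι] [DecidableEq ι] (V : Finset (ι → ℕ)) (θ : ι → ℝ), Cn V → GP V →
  Gd V θ → ∀ (p : ι → ℕ) (σ : Finset (ι → ℕ)) (l : (ι → ℕ) → ℝ) (w : ι → ℝ) (u : ι → ℕ), Cell V θ p σ l w →
    u ∈ σ → 1 ≤ l u → mon p ∈ idl (Lp V) ⊔ fls V θ (dg V θ p)

/-- SP2. The box spans. USES: SP1, FN.
PROOF. For `f = mon p`, by induction on the number of `q` with `dg p < dg q < t` (finite, FN): `dg p ≥ t`: clear; `p ∈ Box`: clear; otherwise SP1, and an element of `fls (dg p)` is a combination of monomials `mon q` with `dg q > dg p` (`fls` is spanned by them over `ℚ`, as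
`dg` is monotone, FN). -/
def S_SP2 : Prop := ∀ (ι : Type) [Fintype ι] [DecidableEq ι] (V : Finset (ι → ℕ)) (θ : ι → ℝ)
  (Box : Finset (ι → ℕ)), Cn V → GP V → Gd V θ →
  (∀ p, p ∉ Box → ∃ (σ : Finset (ι → ℕ)) (l : (ι → ℕ) → ℝ) (w : ι → ℝ), Cell V θ p σ l w ∧ ∃ u ∈ σ, 1 ≤ l u) →
  ∀ (t : ℝ) (f : MvPolynomial ι ℚ), ∃ c : (ι → ℕ) → ℚ, f - ∑ b ∈ Box, c b • mon b ∈ idl (Lp V) ⊔ fl V θ t

/-- UB. USES: FD, SP2, FN. PROOF. `fl t ≤ mm M` for `t ≥ M + card ι` (FN: `∑ p_i + N > dg p`). So the quotient is spanned by the classes of `mon b`, `b ∈ Box`. -/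
def S_UB : Prop := ∀ (ι : Type) [Fintype ι] [DecidableEq ι] (V : Finset (ι → ℕ)) (θ : ι → ℝ)
  (Box : Finset (ι → ℕ)), Cn V → GP V → Gd V θ →
  (∀ p, p ∉ Box → ∃ (σ : Finset (ι → ℕ)) (l : (ι → ℕ) → ℝ) (w : ι → ℝ), Cell V θ p σ l w ∧ ∃ u ∈ σ, 1 ≤ l u) →
  ∀ M : ℕ, dq (idl (Lp V)) M ≤ Box.card

/-- VB. The box and the volume. (Self contained.)
PROOF. `N = card ι`, `ρ = rr V`. For `x > 0` a minimiser of `⟨w, x⟩` over `LL V` has all `w_i ≤ 1` (`min w 1 ∈ LL V`: if `w_j > 1` and `v_j ≠ 0` then `⟨min w 1, v⟩ ≥ v_j ≥ 1`), so `ρ(p + 1) ≤ ρ(p + θ) + N`, and `ρ(x) < t + N` for all `x ∈ p + [0,1)^N` if `dg p < t`. So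
`#{p | dg p < t} ≤ volume {x ≥ 0 | ρ x < t + N} = (t + N)^N volume (KK V)`. On the other hand with `c = max dg b` over the box (`t > c` integral ...): `#{p | dg p < t} ≥ |Box| #{a | ∑ a < t - c} ≥ |Box| (t - c - 1)^N / N!` (`#{a : ι → ℕ | ∑ a ≤ k} = C(k+N, N) ≥ k^N / N!`).
`t → ∞`. (`KK V` is bounded: `x_j < m_j`.) -/
def S_VB : Prop := ∀ (ι : Type) [Fintype ι] [DecidableEq ι] (V : Finset (ι → ℕ)) (θ : ι → ℝ)
  (Box : Finset (ι → ℕ)) (G : (ι → ℕ) → (ι → ℕ) → (ι → ℕ)), Cn V → (∀ i, 0 < θ i) →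
  (∀ b ∈ Box, ∀ a, dg V θ (G b a) = dg V θ b + ∑ i, (a i : ℝ)) →
  (∀ b ∈ Box, ∀ b' ∈ Box, ∀ a a', G b a = G b' a' → b = b' ∧ a = a') →
    (Box.card : ℝ) ≤ ((Fintype.card ι).factorial : ℝ) * (volume (KK V)).toReal

/-- BS. The elements `mon b ∏ L_i^(a_i)` span. USES: SP2, FN.
PROOF. `J = idl (Lp V)`. By induction on `r`: every `f` is a combination of `mon b ∏ L_i^(a_i)` with `∑ a < r`, plus an element of `J^r`, plus an element of `fl t` (step: an element of `J^r` is `∑_{∑ a = r} ∏ L_i^(a_i) f_a`, apply SP2 to `f_a`). `J^r ≤ fl r` (FN,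
`dg (p + v) ≥ dg p + 1` for `v ∈ V`, which is clear from the definition of `dg`), so take `r ≥ t`. -/
def S_BS : Prop := ∀ (ι : Type) [Fintype ι] [DecidableEq ι] (V : Finset (ι → ℕ)) (θ : ι → ℝ)
  (Box : Finset (ι → ℕ)), Cn V → GP V → Gd V θ →
  (∀ p, p ∉ Box → ∃ (σ : Finset (ι → ℕ)) (l : (ι → ℕ) → ℝ) (w : ι → ℝ), Cell V θ p σ l w ∧ ∃ u ∈ σ, 1 ≤ l u) →
  ∀ (t : ℝ) (f : MvPolynomial ι ℚ), ∃ (T : Finset ((ι → ℕ) × (ι → ℕ))) (c : (ι → ℕ) × (ι → ℕ) → ℚ),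
    (∀ x ∈ T, x.1 ∈ Box) ∧ f - ∑ x ∈ T, c x • (mon x.1 * ∏ i, Lp V i ^ x.2 i) ∈ fl V θ t

/-- BA. They are linearly independent. USES: BJ, BS, FN.
PROOF. `mon b ∏ L_i^(a_i) ∈ fl (dg b + ∑ a)`. So in the quotient `S / fl t` (finite dimension = `#{p | dg p < t}`, basis the monomials, FN) the classes of the finitely many elements with `dg b + ∑ a < t` span (BS), and by the bijection `G` (BJ) their number is
`#{p | dg p < t}`: they are a basis (`linearIndependent_of_top_le_span_of_card_eq_finrank`). The `Box` and `G` are those of BJ. -/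
def S_BA : Prop := ∀ (ι : Type) [Fintype ι] [DecidableEq ι] (V : Finset (ι → ℕ)) (θ : ι → ℝ)
  (Box : Finset (ι → ℕ)) (G : (ι → ℕ) → (ι → ℕ) → (ι → ℕ)), Cn V → GP V → Gd V θ →
  (∀ b ∈ Box, ∀ a, dg V θ (G b a) = dg V θ b + ∑ i, (a i : ℝ)) →
  (∀ b ∈ Box, ∀ b' ∈ Box, ∀ a a', G b a = G b' a' → b = b' ∧ a = a') → (∀ p, ∃ b ∈ Box, ∃ a, G b a = p) →
  (∀ p, p ∉ Box → ∃ (σ : Finset (ι → ℕ)) (l : (ι → ℕ) → ℝ) (w : ι → ℝ), Cell V θ p σ l w ∧ ∃ u ∈ σ, 1 ≤ l u) →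
  ∀ (t : ℝ) (T : Finset ((ι → ℕ) × (ι → ℕ))) (c : (ι → ℕ) × (ι → ℕ) → ℚ), (∀ x ∈ T, x.1 ∈ Box) →
    ∑ x ∈ T, c x • (mon x.1 * ∏ i, Lp V i ^ x.2 i) ∈ fl V θ t →
      ∀ x ∈ T, dg V θ x.1 + ∑ i, (x.2 i : ℝ) < t → c x = 0

/-- RG. `L` is regular in all orders. USES: TH, BJ, BS, BA, FN.
PROOF. `F_(b,a) = mon b ∏ L_i^(a_i)`. Let `i ∉ T`, `L_i f ∈ (L_T) + mm M`, `mm M ≤ fl t` (`t = c M`, FN). Expand `f = ∑ c F` modulo `fl (t-1)` (BS): `L_i f = ∑ c_(b,a) F_(b,a+e_i)` modulo `fl t`. Every element of `(L_T)` is modulo `fl t` a combination of `F_(b,a)` with `a_j > 0` for some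
`j ∈ T`. By BA `c_(b,a) = 0` whenever `dg b + ∑ a < t - 1` and `a = 0` on `T`. So `f ∈ (L_T) + fl (t-1) ≤ (L_T) + mm M'` if `t - 1 ≥ M' + N`. -/
def S_RG : Prop := ∀ (ι : Type) [Fintype ι] [DecidableEq ι] (V : Finset (ι → ℕ)), Cn V → GP V → RS (Lp V)

/-! ## Goals: faces, scaling, numbers -/

/-- FR. Faces. PROOF. The algebra map `ℚ[x_i, i ∈ ι] → ℚ[x_i, i ∈ I]`, `x_j ↦ 0` for `j ∉ I`, is onto with kernel `(x_j, j ∉ I)`; it maps `L_i` to the `L_i` of `res V I` (exponents with a nonzero coordinate outside `I` go to `0`, and restriction is injective on the others)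
and `mm` onto `mm`. So the two quotients are isomorphic. -/
def S_FR : Prop := ∀ (ι : Type) [Fintype ι] [DecidableEq ι] (V : Finset (ι → ℕ)) (I : Finset ι) (M : ℕ),
  dq (idl fun i => if i ∈ I then Lp V i else X i) M = dq (idl (Lp (res V I))) M

/-- GR. PROOF. Clear: extend `w` by `0` outside `I`. -/
def S_GR : Prop := ∀ (ι : Type) [Fintype ι] [DecidableEq ι] (V : Finset (ι → ℕ)) (I : Finset ι),
  (GP V → GP (res V I)) ∧ (Cn V → Cn (res V I))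

/-- `V'` consists of multiples of the elements of `V`, with factors between `q` and `q + C` -/
def Sc {ι : Type} (V V' : Finset (ι → ℕ)) (q C : ℕ) : Prop :=
  (∀ v ∈ V, ∃ m : ℕ, q ≤ m ∧ m ≤ q + C ∧ m • v ∈ V') ∧ ∀ v' ∈ V', ∃ v ∈ V, ∃ m : ℕ, q ≤ m ∧ m ≤ q + C ∧ v' = m • v

/-- GQ. General position by scaling.
PROOF. Let `j : V → ℕ` be injective, `C` its maximum, `V' = {(q + j v) v}`. For a subset `U` of `V` whose vectors are linearly dependent choose a relation `∑ a_u u = 0`, `a ≠ 0` (finitely many `U`). If `(q + j u) ⟨w, u⟩ = 1` for all `u ∈ U` then `∑ a_u / (q + j u) = 0`. The polynomial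
`∑ a_u ∏_{u' ≠ u} (X + j u')` is not zero (value at `- j u`), so this happens only for finitely many `q`. (Different `v` may have the same multiple: take a set of representatives.) -/
def S_GQ : Prop := ∀ (ι : Type) [Fintype ι] [DecidableEq ι] (V : Finset (ι → ℕ)), (0 : ι → ℕ) ∉ V →
  ∃ C q0 : ℕ, ∀ q : ℕ, q0 ≤ q → ∃ V' : Finset (ι → ℕ), Sc V V' q C ∧ GP V'

/-- SR. PROOF. Clear. -/
def S_SR : Prop := ∀ (ι : Type) [Fintype ι] [DecidableEq ι] (V V' : Finset (ι → ℕ)) (q C : ℕ) (I : Finset ι),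
  0 < q → Sc V V' q C → Sc (res V I) (res V' I) q C

/-- VS. Volumes. PROOF. `w ∈ LL V → w / q ∈ LL V'` (`0 < q`), so `q • KK V ⊆ KK V'`; `w ∈ LL V' → (q + C) w ∈ LL V`, so `KK V' ⊆ (q + C) • KK V`. `KK V` is bounded. (`Measure.addHaar_smul`.) -/
def S_VS : Prop := ∀ (ι : Type) [Fintype ι] [DecidableEq ι] (V V' : Finset (ι → ℕ)) (q C : ℕ), Cn V → 0 < q →
  Sc V V' q C → volume (KK V) ≠ ⊤ ∧ volume (KK V') ≠ ⊤ ∧
    (q : ℝ) ^ Fintype.card ι * (volume (KK V)).toReal ≤ (volume (KK V')).toReal ∧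
    (volume (KK V')).toReal ≤ ((q : ℝ) + C) ^ Fintype.card ι * (volume (KK V)).toReal

/-- NU. PROOF. `m = 0`: equality. `m = N`: `2^N N ≤ N^(N+1)`. `m = 1`: `2 (1 - 1/N)^(N+1) + 2/N ≤ 1`. General: `x = m/N`: `2^m [(1 - x)^(N+1) + x (1 - x + 1/N)^N] ≤ 1`. With `(1 - x)^N ≤ e^(-m)`, `(1 - x + 1/N)^N ≤ e^(1-m)`: `(2/e)^m (1 - x + e x) ≤ 1` for `N ≥ 6` (`m = 1`: `.7358 (1 + 1.718/N) ≤ .95`; decreasing in `m`);
`N = 4, 5` by `decide`/`norm_num`. (Any other proof is fine.) -/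
def S_NU : Prop := ∀ N m : ℕ, 4 ≤ N → m ≤ N → 2 ^ m * ((N - m) ^ (N + 1) + m * (N - m + 1) ^ N) ≤ N ^ (N + 1)

/-- PS. PROOF. Group the `φ` by `J = {j ∈ I | φ j = 0}`: there are `D^(|I| - |J|)` of them. -/
def S_PS : Prop := ∀ (ι : Type) [Fintype ι] [DecidableEq ι] (I : Finset ι) (D : ℕ) (F : Finset ι → ℕ),
  ∑ φ : ι → Fin (D + 1), (if ∀ j, j ∉ I → φ j = 0 then F (I.filter fun j => φ j = 0) else 0) =
    ∑ J ∈ I.powerset, D ^ (I.card - J.card) * F J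

/-- PB. PROOF. Group the `φ` by `J = {j | φ j = 0}`: there are `D^(card ι - |J|)` of them. -/
def S_PB : Prop := ∀ (ι : Type) [Fintype ι] [DecidableEq ι] (B : Finset ι) (D : ℕ) (F : Finset ι → ℕ),
  ∑ φ : ι → Fin (D + 1), (if ∀ j, j ∈ B → φ j = 0 then F (Finset.univ.filter fun j => φ j = 0) else 0) =
    ∑ J ∈ Finset.univ.filter (fun J => B ⊆ J), D ^ (Fintype.card ι - J.card) * F J

/-! ## Goals: words -/

/-- the elements used for the letter `l` -/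
noncomputable def el {ι : Type} [Fintype ι] [DecidableEq ι] (V : Finset (ι → ℕ)) (D : ℕ) (i0 l r : ι) :
    MvPolynomial ι ℚ := if r = l ∧ l ≠ i0 then gp V D l else Lp V r

/-- a combination of the elements for the letter `l` -/
noncomputable def lett {ι : Type} [Fintype ι] [DecidableEq ι] (V : Finset (ι → ℕ)) (D : ℕ) (i0 : ι)
    (t : ι × ι × ι → ℚ) (j l : ι) : MvPolynomial ι ℚ := ∑ r, t (j, l, r) • el V D i0 l r

/-- W1. A special word. PROOF. `B = image φ \ {i0}`. For `b ∈ B` choose `j_b` with `φ (j_b) = b`, and a permutation `π` of `ι` with `π (j_b) = b` (extend the injection `b ↦ j_b`). `t (j, l, r) = 1` if `r = π j`, else `0`. Then the `j`-th element is `el (φ j) (π j)`: it is `gp b` for `j = j_b`; for the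
other `j`: `π j ∉ B`, so it is not the case that `π j = φ j ≠ i0`, and the element is `Lp (π j)`. -/
def S_W1 : Prop := ∀ (ι : Type) [Fintype ι] [DecidableEq ι] (V : Finset (ι → ℕ)) (D : ℕ) (i0 : ι) (φ : ι → ι),
  ∃ t : ι × ι × ι → ℚ, idl (fun j => lett V D i0 t j (φ j)) =
    idl (fun r => if r ∈ (Finset.univ.image φ).erase i0 then gp V D r else Lp V r)

/-- the polyhedron of the products -/
def PP {ι : Type} [Fintype ι] [DecidableEq ι] (V : Finset (ι → ℕ)) (D : ℕ) (i0 : ι) : Set (ι → ℝ) :=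
  {y | 0 ≤ y ∧ ∀ w ∈ LL V, (Fintype.card ι : ℝ) ≤ ∑ i, w i * (y i + if i = i0 then 0 else (D : ℝ))}

/-- W4. Exponents of the products. PROOF. An exponent `y` of `lett t j l` satisfies `⟨w, y + D e_l⟩ ≥ 1` (`l ≠ i0`), `⟨w, y⟩ ≥ 1` (`l = i0`) for `w ∈ LL V` (`w ≥ 0`): for `gp l` it is `v - D e_l` with `v_l ≥ D` (the coefficient is zero if `v_l = 0`), for `Lp r` it is `v`. Add over the letters `l`
(`MvPolynomial.support_mul`, induction over a finset of letters). -/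
def S_W4 : Prop := ∀ (ι : Type) [Fintype ι] [DecidableEq ι] (V : Finset (ι → ℕ)) (D : ℕ) (i0 : ι)
  (t : ι × ι × ι → ℚ), Cn V → Th V D → ∀ j, ∀ p ∈ (∏ l, lett V D i0 t j l).support,
    (fun i => (p i : ℝ)) ∈ PP V D i0

end Pool.Agent.Helper65.KH
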