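import Pool.Agent.Helper65.KH.Goals

/-!
# Project KH (MP_20ee5e_ag): the numbers `n_J`
-/

set_option autoImplicit false
set_option linter.unusedSectionVars false

open MvPolynomial MeasureTheory

namespace Pool.Agent.Helper65.KH

section basics

variable {ι : Type} [Fintype ι] [DecidableEq ι]

theorem mon_zero : mon (0 : ι → ℕ) = 1 := by
  simp [mon]

theorem mon_add (p q : ι → ℕ) : mon (p + q) = mon p * mon q := by
  simp [mon, pow_add, Finset.prod_mul_distrib]

theorem mon_single (i : ι) (D : ℕ) : mon (Pi.single i D : ι → ℕ) = X i ^ D := by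
  unfold mon
  rw [Finset.prod_eq_single i]
  · rw [Pi.single_eq_same]
  · intro j _ hj
    rw [Pi.single_eq_of_ne hj, pow_zero]
  · intro h
    exact absurd (Finset.mem_univ i) h

/-- `L_i = x_i ^ D g_i` -/
theorem Lp_eq (V : Finset (ι → ℕ)) (D : ℕ) (hT : Th V D) (i : ι) : Lp V i = X i ^ D * gp V D i := by
  unfold Lp gp
  rw [Finset.mul_sum]
  refine Finset.sum_congr rfl fun v hv => ?_
  by_cases h : v i = 0
  · rw [h]
    simp
  · rw [mul_smul_comm, ← mon_single, ← mon_add]
    congr 2
    funext k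
    have h1 := hT v hv i h
    by_cases hk : k = i
    · subst hk
      simp
      omega
    · simp [hk]

theorem mm_zero : mm ι 0 = ⊤ := by
  rw [Ideal.eq_top_iff_one]
  exact Ideal.subset_span ⟨0, Nat.zero_le _, mon_zero.symm⟩

theorem dq_top (M : ℕ) : dq (⊤ : Ideal (MvPolynomial ι ℚ)) M = 0 := by
  unfold dq
  rw [top_sup_eq]
  exact Module.finrank_zero_of_subsingleton

/-- a bounded sequence of dimensions becomes constant -/
theorem limit (hMO : S_MO) (Q : Ideal (MvPolynomial ι ℚ)) (b : ℕ) (hb : ∀ M, dq Q M ≤ b) :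
    ∃ n M0 : ℕ, (∀ M, M0 ≤ M → dq Q M = n) ∧ ∀ M, dq Q M ≤ n := by
  classical
  have hmono : Monotone (dq Q) := fun M' M h => hMO ι Q Q M M' le_rfl h
  have hex : ∃ n, ∀ M, dq Q M ≤ n := ⟨b, hb⟩
  have h1 := Nat.find_spec hex
  have h2 : ∃ M0, dq Q M0 = Nat.find hex := by
    by_contra hno
    push Not at hno
    have h3 : ∀ M, dq Q M ≤ Nat.find hex - 1 := fun M => by
      have h4 := h1 M
      have h5 := hno M
      omega
    have h6 := Nat.find_min' hex h3
    have h7 := h1 0
    have h8 := hno 0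
    omega
  obtain ⟨M0, hM0⟩ := h2
  refine ⟨Nat.find hex, M0, fun M hM => ?_, h1⟩
  exact le_antisymm (h1 M) (hM0 ▸ hmono hM)

theorem dvd_of (V : Finset (ι → ℕ)) (D : ℕ) (hD : 0 < D) (hT : Th V D) (J : Finset ι) (r : ι) :
    (if r ∈ J then gp V D r else X r) ∣ Lp V r := by
  rw [Lp_eq V D hT r]
  split_ifs
  · exact dvd_mul_left _ _
  · obtain ⟨d, rfl⟩ : ∃ d, D = d + 1 := ⟨D - 1, by omega⟩
    exact ⟨X r ^ d * gp V (d + 1) r, by ring⟩

theorem idl_mono_dvd (H H' : ι → MvPolynomial ι ℚ) (h : ∀ r, H r ∣ H' r) : idl H' ≤ idl H := by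
  unfold idl
  rw [Ideal.span_le]
  rintro _ ⟨r, rfl⟩
  obtain ⟨c, hc⟩ := h r
  rw [hc]
  exact Ideal.mul_mem_right _ _ (Ideal.subset_span ⟨r, rfl⟩)

theorem idl_one (H : ι → MvPolynomial ι ℚ) (j : ι) (h : H j = 1) : idl H = ⊤ := by
  rw [Ideal.eq_top_iff_one, ← h]
  exact Ideal.subset_span ⟨j, rfl⟩

end basics

/-- the length is the volume -/
theorem vol_eq (hTH : S_TH) (hBJ : S_BJ) (hUB : S_UB) (hVB : S_VB) (hF2 : S_F2) (hMO : S_MO)
    (ι : Type) [Fintype ι] [DecidableEq ι] (V : Finset (ι → ℕ)) (hC : Cn V) (hG : GP V) :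
    ∃ n M0 : ℕ, (∀ M, M0 ≤ M → dq (idl (Lp V)) M = n) ∧ (∀ M, dq (idl (Lp V)) M ≤ n) ∧
      ((Fintype.card ι).factorial : ℝ) * (volume (KK V)).toReal = n := by
  obtain ⟨θ, hθ⟩ := hTH ι V
  obtain ⟨Box, G, h1, h2, h3, h4, h5⟩ := hBJ ι V θ hC hG hθ
  have hub := hUB ι V θ Box hC hG hθ h5
  have hvb := hVB ι V θ Box G hC (fun i => (hθ.1 i).1) h1 h3
  obtain ⟨n, M0, hn, hn'⟩ := limit hMO (idl (Lp V)) Box.card hub
  refine ⟨n, M0, hn, hn', le_antisymm ?_ ?_⟩
  · -- the lower bound F2
    have hpos : ∀ w ∈ LL V, ∀ i, 0 ≤ w i := by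
      intro w hw i
      obtain ⟨m, hm, hmV⟩ := hC.2 i
      have h6 := hw _ hmV
      unfold dt cv at h6
      rw [Finset.sum_eq_single i] at h6
      · rw [Pi.single_eq_same] at h6
        by_contra hneg
        push Not at hneg
        have : (0 : ℝ) < m := by exact_mod_cast hm
        nlinarith
      · intro j _ hj
        rw [Pi.single_eq_of_ne hj]
        simp
      · intro h
        exact absurd (Finset.mem_univ i) h
    have key := hF2 ι (Lp V) {x | 0 ≤ x ∧ ∀ w ∈ LL V, 1 ≤ dt w x} n ?_ ?_ ?_ hn'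
    · have hset : {x : ι → ℝ | 0 ≤ x ∧ x ∉ {x | 0 ≤ x ∧ ∀ w ∈ LL V, 1 ≤ dt w x}} = KK V := by
        ext x
        constructor
        · rintro ⟨hx, hx'⟩
          refine ⟨hx, ?_⟩
          by_contra hno
          push Not at hno
          exact hx' ⟨hx, hno⟩
        · rintro ⟨hx, w, hw, hwx⟩
          exact ⟨hx, fun h => absurd (h.2 w hw) (not_le.2 hwx)⟩
      rw [hset] at key
      have h7 := ENNReal.toReal_mono (ENNReal.natCast_ne_top n) key
      rw [ENNReal.toReal_mul, ENNReal.toReal_natCast, ENNReal.toReal_natCast] at h7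
      exact h7
    · intro x hx y hy a b ha hb hab
      refine ⟨?_, fun w hw => ?_⟩
      · exact add_nonneg (smul_nonneg ha hx.1) (smul_nonneg hb hy.1)
      · have e1 : dt w (a • x + b • y) = a * dt w x + b * dt w y := by
          unfold dt
          rw [Finset.mul_sum, Finset.mul_sum, ← Finset.sum_add_distrib]
          refine Finset.sum_congr rfl fun i _ => ?_
          simp only [Pi.add_apply, Pi.smul_apply, smul_eq_mul]
          ring
        rw [e1]
        have e2 := mul_le_mul_of_nonneg_left (hx.2 w hw) ha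
        have e3 := mul_le_mul_of_nonneg_left (hy.2 w hw) hb
        linarith
    · intro x hx y hxy
      refine ⟨hx.1.trans hxy, fun w hw => (hx.2 w hw).trans ?_⟩
      exact Finset.sum_le_sum fun i _ => mul_le_mul_of_nonneg_left (hxy i) (hpos w hw i)
    · intro j p hp
      unfold Lp at hp
      have h8 := MvPolynomial.support_sum hp
      rw [Finset.mem_biUnion] at h8
      obtain ⟨v, hv, hpv⟩ := h8
      have h9 : (fun i => p i) = v := by
        have h10 := MvPolynomial.support_smul hpv
        have h11 : mon v = monomial (Finsupp.equivFunOnFinite.symm v) (1 : ℚ) := by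
          rw [monomial_eq, map_one, one_mul]
          unfold mon
          rw [Finsupp.prod_fintype _ _ (fun i => pow_zero _)]
          rfl
        rw [h11] at h10
        have h12 := MvPolynomial.support_monomial_subset h10
        rw [Finset.mem_singleton] at h12
        rw [h12]
        rfl
      refine ⟨fun i => Nat.cast_nonneg _, fun w hw => ?_⟩
      have h13 := hw v hv
      have h14 : (fun i => ((p i : ℕ) : ℝ)) = cv v := by
        rw [← h9]
        rfl
      rw [h14]
      exact h13
  · have h8 := hn M0 le_rfl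
    have h9 : (n : ℝ) ≤ Box.card := by
      rw [← h8]
      exact_mod_cast hub M0
    exact h9.trans hvb

/-- the number `n_J` and the two formulas -/
theorem main_AD (hTH : S_TH) (hBJ : S_BJ) (hUB : S_UB) (hVB : S_VB) (hF2 : S_F2) (hMO : S_MO) (hEX : S_EX)
    (hEQ : S_EQ) (hRA : S_RA) (hRG : S_RG) (hFR : S_FR) (hGR : S_GR) (hPS : S_PS) (hPB : S_PB)
    (ι : Type) [Fintype ι] [DecidableEq ι] (V : Finset (ι → ℕ)) (D : ℕ) (hD : 0 < D) (hT : Th V D)
    (hC : Cn V) (hG : GP V) :
    ∃ n : Finset ι → ℕ, n ∅ = 1 ∧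
      (∀ I : Finset ι, ((I.card).factorial : ℝ) * (volume (KK (res V I))).toReal =
        ∑ J ∈ I.powerset, (D : ℝ) ^ (I.card - J.card) * n J) ∧
      ∀ (B : Finset ι) (M : ℕ), dq (idl fun r => if r ∈ B then gp V D r else Lp V r) M ≤
        ∑ J ∈ Finset.univ.filter (fun J => B ⊆ J), D ^ (Fintype.card ι - J.card) * n J := by
  obtain ⟨nt, Mt, hnt, hnt', -⟩ := vol_eq hTH hBJ hUB hVB hF2 hMO ι V hC hG
  -- the systems `g_J, x_J^c`
  have hbd : ∀ J : Finset ι, ∀ M, dq (idl fun r => if r ∈ J then gp V D r else X r) M ≤ nt := fun J M =>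
    (hMO ι _ _ M M (idl_mono_dvd _ _ fun r => dvd_of V D hD hT J r) le_rfl).trans (hnt' M)
  choose n M0 hn hn' using fun J : Finset ι => limit hMO _ nt (hbd J)
  -- the volumes
  have hvol : ∀ I : Finset ι, ((I.card).factorial : ℝ) * (volume (KK (res V I))).toReal =
      ∑ J ∈ I.powerset, (D : ℝ) ^ (I.card - J.card) * n J := by
    intro I
    obtain ⟨ni, Mi, hni, hni', hvi⟩ := vol_eq hTH hBJ hUB hVB hF2 hMO I (res V I) ((hGR ι V I).2 hC)
      ((hGR ι V I).1 hG)
    rw [Fintype.card_coe] at hvi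
    rw [hvi]
    obtain ⟨a, ha⟩ : ∃ a : ι → Fin (D + 1) → MvPolynomial ι ℚ,
        a = fun j l => if j ∈ I then (if l = 0 then gp V D j else X j) else (if l = 0 then X j else 1) :=
      ⟨_, rfl⟩
    have hprod : (fun j => ∏ l, a j l) = fun j => if j ∈ I then Lp V j else X j := by
      funext j
      rw [ha, Fin.prod_univ_succ]
      by_cases hj : j ∈ I
      · simp [hj, Lp_eq V D hT j, Fin.succ_ne_zero]
        ring
      · simp [hj, Fin.succ_ne_zero]
    have hword : ∀ (φ : ι → Fin (D + 1)) (M : ℕ), dq (idl fun j => a j (φ j)) M =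
        if ∀ j, j ∉ I → φ j = 0 then
          dq (idl fun r => if r ∈ I.filter (fun j => φ j = 0) then gp V D r else X r) M else 0 := by
      intro φ M
      split_ifs with h
      · congr 2
        funext j
        rw [ha]
        by_cases hj : j ∈ I
        · by_cases hφ : φ j = 0 <;> simp [hj, hφ]
        · simp [hj, h j hj]
      · push Not at h
        obtain ⟨j, hj, hφ⟩ := h
        rw [idl_one _ j (by rw [ha]; simp [hj, hφ]), dq_top]
    have hup : ∀ M, dq (idl fun j => if j ∈ I then Lp V j else X j) M ≤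
        ∑ J ∈ I.powerset, D ^ (I.card - J.card) * n J := by
      intro M
      have h1 := hEX ι (Fin (D + 1)) a M
      rw [hprod, Finset.sum_congr rfl fun φ _ => hword φ M] at h1
      have h2 := hPS ι I D fun J => dq (idl fun r => if r ∈ J then gp V D r else X r) M
      rw [h2] at h1
      exact h1.trans (Finset.sum_le_sum fun J _ => Nat.mul_le_mul le_rfl (hn' J M))
    have hRS : RS (fun j => ∏ l, a j l) := by
      rw [hprod]
      refine hRA ι (Lp V) _ (hRG ι V hC hG) fun j => ?_
      split_ifs with hj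
      · exact dvd_rfl
      · rw [Lp_eq V D hT j]
        obtain ⟨d, rfl⟩ : ∃ d, D = d + 1 := ⟨D - 1, by omega⟩
        exact ⟨X j ^ d * gp V (d + 1) j, by ring⟩
    have hlow : ∑ J ∈ I.powerset, D ^ (I.card - J.card) * n J ≤ ni := by
      obtain ⟨M, hM⟩ := hEQ ι (Fin (D + 1)) a hRS (Finset.univ.sup M0)
      rw [hprod, Finset.sum_congr rfl fun φ _ => hword φ _] at hM
      have h2 := hPS ι I D fun J =>
        dq (idl fun r => if r ∈ J then gp V D r else X r) (Finset.univ.sup M0)
      rw [h2] at hM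
      have h3 : ∑ J ∈ I.powerset, D ^ (I.card - J.card) *
          dq (idl fun r => if r ∈ J then gp V D r else X r) (Finset.univ.sup M0) =
          ∑ J ∈ I.powerset, D ^ (I.card - J.card) * n J :=
        Finset.sum_congr rfl fun J _ => by
          rw [hn J _ (Finset.le_sup (f := M0) (Finset.mem_univ J))]
      have h4 := hFR ι V I M
      rw [← h3]
      refine hM.trans ?_
      rw [h4]
      exact hni' M
    have hnup : ni ≤ ∑ J ∈ I.powerset, D ^ (I.card - J.card) * n J := by
      rw [← hni Mi le_rfl, ← hFR ι V I Mi]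
      exact hup Mi
    have heq := le_antisymm hnup hlow
    rw [heq]
    push_cast
    rfl
  refine ⟨n, ?_, hvol, ?_⟩
  · -- `n ∅ = 1`
    have h1 := hvol ∅
    have h2 : KK (res V ∅) = Set.univ := by
      have h3 : res V ∅ = ∅ := by
        unfold res
        rw [Finset.image_eq_empty, Finset.filter_eq_empty_iff]
        intro v hv h
        apply hC.1
        have : v = 0 := by
          funext j
          exact h j (Finset.notMem_empty j)
        rw [← this]
        exact hv
      rw [h3, Set.eq_univ_iff_forall]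
      intro x
      refine ⟨fun i => absurd i.2 (Finset.notMem_empty _), 0, ?_, ?_⟩
      · intro v hv
        exact absurd hv (Finset.notMem_empty _)
      · simp [dt]
    rw [h2] at h1
    have h4 : (volume (Set.univ : Set ((∅ : Finset ι) → ℝ))).toReal = 1 := by
      rw [volume_pi, Measure.pi_univ]
      simp
    rw [h4] at h1
    simp at h1
    exact_mod_cast h1.symm
  · intro B M
    obtain ⟨a, ha⟩ : ∃ a : ι → Fin (D + 1) → MvPolynomial ι ℚ,
        a = fun j l => if l = 0 then gp V D j else (if j ∈ B then 1 else X j) := ⟨_, rfl⟩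
    have hprod : (fun j => ∏ l, a j l) = fun j => if j ∈ B then gp V D j else Lp V j := by
      funext j
      rw [ha, Fin.prod_univ_succ]
      by_cases hj : j ∈ B
      · simp [hj, Fin.succ_ne_zero]
      · simp [hj, Lp_eq V D hT j, Fin.succ_ne_zero]
        ring
    have hword : ∀ φ : ι → Fin (D + 1), dq (idl fun j => a j (φ j)) M =
        if ∀ j, j ∈ B → φ j = 0 then
          dq (idl fun r => if r ∈ Finset.univ.filter (fun j => φ j = 0) then gp V D r else X r) M
        else 0 := by
      intro φ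
      split_ifs with h
      · congr 2
        funext j
        rw [ha]
        by_cases hj : j ∈ B
        · simp [h j hj]
        · by_cases hφ : φ j = 0 <;> simp [hj, hφ]
      · push Not at h
        obtain ⟨j, hj, hφ⟩ := h
        rw [idl_one _ j (by rw [ha]; simp [hj, hφ]), dq_top]
    have h1 := hEX ι (Fin (D + 1)) a M
    rw [hprod, Finset.sum_congr rfl fun φ _ => hword φ] at h1
    have h2 := hPB ι B D fun J => dq (idl fun r => if r ∈ J then gp V D r else X r) M
    rw [h2] at h1
    exact h1.trans (Finset.sum_le_sum fun J _ => Nat.mul_le_mul le_rfl (hn' J M))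

end Pool.Agent.Helper65.KH
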