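import Pool.Agent.Helper65.KH.Goals

set_option autoImplicit false

namespace Pool.Agent.Helper65.KH.TH

open Pool.Agent.Helper65.KH Polynomial

theorem exists_tau : ∃ τ : ℝ, 0 < τ ∧ τ < 1 ∧ Transcendental ℚ τ := by
  have h1 : ({x : ℝ | IsAlgebraic ℚ x}).Countable := Algebraic.countable ℚ ℝ
  have h2 : ¬ (Set.Ioo (0 : ℝ) 1).Countable := by
    rw [Cardinal.Real.Ioo_countable_iff]
    norm_num
  by_contra hcon
  push Not at hcon
  apply h2
  refine h1.mono fun x hx => ?_
  by_contra h3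
  exact hcon x hx.1 hx.2 h3

theorem t : S_TH := by
  intro ι _ _ V
  obtain ⟨τ, h0, h1, hτ⟩ := exists_tau
  let e := Fintype.equivFin ι
  refine ⟨fun i => τ ^ ((e i : ℕ) + 1), fun i => ⟨by positivity, pow_lt_one₀ h0.le h1 (by omega)⟩, ?_⟩
  intro U hU hc p l heq
  -- a rational vector orthogonal to `U`
  have hker : ∃ a : ι → ℚ, a ≠ 0 ∧ ∀ u ∈ U, ∑ i, a i * (u i : ℚ) = 0 := by
    let φ : (ι → ℚ) →ₗ[ℚ] (U → ℚ) :=
      LinearMap.pi fun u => ∑ i, ((u.1 i : ℚ)) • LinearMap.proj i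
    have hlt : Module.finrank ℚ (U → ℚ) < Module.finrank ℚ (ι → ℚ) := by
      simp [hc]
    have hb := LinearMap.ker_ne_bot_of_finrank_lt (f := φ) hlt
    obtain ⟨a, ha, ha0⟩ := (Submodule.ne_bot_iff _).1 hb
    refine ⟨a, ha0, fun u hu => ?_⟩
    have := congrFun (LinearMap.mem_ker.1 ha) ⟨u, hu⟩
    simp only [φ, LinearMap.pi_apply, LinearMap.sum_apply, LinearMap.smul_apply, LinearMap.proj_apply,
      Pi.zero_apply, smul_eq_mul] at this
    rw [← this]
    exact Finset.sum_congr rfl fun i _ => mul_comm _ _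
  obtain ⟨a, ha0, ha⟩ := hker
  let q : ℚ[X] := (∑ i, C (a i) * X ^ ((e i : ℕ) + 1)) + C (∑ i, a i * (p i : ℚ))
  have hq : aeval τ q = 0 := by
    have h5 : ∑ i, (a i : ℝ) * ((p i : ℝ) + τ ^ ((e i : ℕ) + 1)) = 0 := by
      calc ∑ i, (a i : ℝ) * ((p i : ℝ) + τ ^ ((e i : ℕ) + 1))
          = ∑ i, (a i : ℝ) * ∑ u ∈ U, l u * (u i : ℝ) := Finset.sum_congr rfl fun i _ => by rw [heq i]
        _ = ∑ u ∈ U, l u * ∑ i, (a i : ℝ) * (u i : ℝ) := by
            simp_rw [Finset.mul_sum]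
            rw [Finset.sum_comm]
            exact Finset.sum_congr rfl fun u _ => Finset.sum_congr rfl fun i _ => by ring
        _ = 0 := Finset.sum_eq_zero fun u hu => by
            have := congrArg (fun z : ℚ => (z : ℝ)) (ha u hu)
            simp only [Rat.cast_sum, Rat.cast_mul, Rat.cast_natCast, Rat.cast_zero] at this
            rw [this, mul_zero]
    simp only [q, map_add, map_sum, map_mul, aeval_C, map_pow, aeval_X, eq_ratCast, Rat.cast_intCast]
    rw [← h5, ← Finset.sum_add_distrib]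
    exact Finset.sum_congr rfl fun i _ => by ring
  have hq0 : q = 0 := by
    by_contra h6
    exact hτ ⟨q, h6, hq⟩
  apply ha0
  funext j
  have h7 := congrArg (fun r : ℚ[X] => r.coeff ((e j : ℕ) + 1)) hq0
  simp only [q, coeff_add, finsetSum_coeff, coeff_C_mul, coeff_X_pow, coeff_C, coeff_zero] at h7
  rw [Finset.sum_eq_single j] at h7
  · simpa using h7
  · intro i _ hij
    rw [if_neg, mul_zero]
    intro h8
    exact hij (e.injective (Fin.ext (by omega)))
  · simp

end Pool.Agent.Helper65.KH.TH
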