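import Pool.Agent.Helper65.KH.End
import Pool.Agent.Helper10.KH.LC
import Pool.Agent.Helper15.KH.RG
import Pool.Agent.Helper22.KH.PW
import Pool.Agent.Helper22.KH.SP1
import Pool.Agent.Helper24.KH.SA
import Pool.Agent.Helper32.KH.GR
import Pool.Agent.Helper34.KH.FD
import Pool.Agent.Helper36.KH.RB
import Pool.Agent.Helper37.KH.NU
import Pool.Agent.Helper39.KH.ST
import Pool.Agent.Helper40.KH.W4
import Pool.Agent.Helper48.KH.FN
import Pool.Agent.Helper50.KH.RA
import Pool.Agent.Helper52.KH.CE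
import Pool.Agent.Helper67.KH.W1
import Pool.Agent.Helper69.KH.EX
import Pool.Agent.Helper70.KH.BJ
import Pool.Agent.Helper71.KH.VS
import Pool.Agent.Helper72.KH.MO
import Pool.Agent.Helper76.KH.VB
import Pool.Agent.Helper77.KH.GQ
import Pool.Agent.Helper79.KH.EQ
import Pool.Agent.Helper80.KH.SC
import Pool.Agent.Helper83.KH.BA
import Pool.Agent.Helper85.KH.SR
import Pool.Agent.Helper94.KH.DG
import Pool.Agent.Helper95.KH.FR
import Pool.Agent.Helper98.KH.UB
import Pool.Agent.Helper99.KH.PS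
import Pool.Agent.Helper90.KH.BS
import Pool.Agent.Helper65.KH.TH
import Pool.Agent.Helper46.KH.F2
import Pool.Agent.Helper73.KH.SC1
import Pool.Agent.Helper8.KH.SP2
import Pool.Agent.Helper96.KH.PB

/-!
# Project KH (MP_20ee5e_ag): assembly of THEOREM H
-/

set_option autoImplicit false

open MeasureTheory

namespace Pool.Agent.Helper65.KH

open Pool.Agent.Helper70.KN (Convenient newton under extz vol newtonNumber genus)

theorem pFD : S_FD := Pool.Agent.Helper34.KH.FD.t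
theorem pMO : S_MO := Pool.Agent.Helper72.KH.MO.t pFD
theorem pSA : S_SA := Pool.Agent.Helper24.KH.SA.t pFD
theorem pST : S_ST := Pool.Agent.Helper39.KH.ST.t pFD pMO
theorem pEX : S_EX := Pool.Agent.Helper69.KH.EX.t pSA
theorem pPW : S_PW := Pool.Agent.Helper22.KH.PW.t pFD
theorem pLC : S_LC := Pool.Agent.Helper10.KH.LC.t pFD
theorem pF2 : S_F2 := Pool.Agent.Helper46.KH.t pPW pLC
theorem pSC1 : S_SC1 := Pool.Agent.Helper73.KH.SC1.t pFD
theorem pSC : S_SC := Pool.Agent.Helper80.KH.SC.t pSC1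
theorem pRA : S_RA := Pool.Agent.Helper50.KH.RA.t
theorem pRB : S_RB := Pool.Agent.Helper36.KH.RB.t pFD pMO pRA
theorem pEQ : S_EQ := Pool.Agent.Helper79.KH.EQ.t pMO pRA pRB
theorem pTH : S_TH := TH.t
theorem pCE : S_CE := Pool.Agent.Helper52.KH.t
theorem pDG : S_DG := Pool.Agent.Helper94.KH.DG.t pCE
theorem pBJ : S_BJ := Pool.Agent.Helper70.KH.BJ.t pCE pDG
theorem pFN : S_FN := Pool.Agent.Helper48.KH.FN.t
theorem pSP1 : S_SP1 := Pool.Agent.Helper22.KH.SP1.t pDG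
theorem pSP2 : S_SP2 := Pool.Agent.Helper8.KH.SP2.t pSP1 pFN
theorem pUB : S_UB := Pool.Agent.Helper98.KH.UB.t pSP2 pFN
theorem pVB : S_VB := Pool.Agent.Helper76.KH.VB.t
theorem pBS : S_BS := Pool.Agent.Helper90.KH.BS.t pSP2
theorem pBA : S_BA := Pool.Agent.Helper83.KH.BA.t pBS pFN
theorem pRG : S_RG := Pool.Agent.Helper15.KH.RG.t pTH pBJ pBS pBA pFN
theorem pFR : S_FR := Pool.Agent.Helper95.KH.FR.t
theorem pGR : S_GR := Pool.Agent.Helper32.KH.GR.t
theorem pGQ : S_GQ := Pool.Agent.Helper77.KH.GQ.t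
theorem pSR : S_SR := Pool.Agent.Helper85.KH.SR.t
theorem pVS : S_VS := Pool.Agent.Helper71.KH.VS.t
theorem pNU : S_NU := Pool.Agent.Helper37.KH.NU.t
theorem pPS : S_PS := Pool.Agent.Helper99.KH.PS.t
theorem pPB : S_PB := Pool.Agent.Helper96.KH.PB.t
theorem pW1 : S_W1 := Pool.Agent.Helper67.KH.W1.t
theorem pW4 : S_W4 := Pool.Agent.Helper40.KH.W4.t

/-- THEOREM H. -/
theorem main (N : ℕ) (hN : 4 ≤ N) (V : Finset (Fin N → ℕ)) (hV : Convenient V)
    (h0 : (0 : Fin N → ℕ) ∉ V) (h1 : ∀ v ∈ V, ∀ i, v i ≠ 1) :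
    (N.factorial : ℝ) * genus V < newtonNumber V :=
  theoremH pSC pST pEX pF2 pW1 pW4 pTH pBJ pUB pVB pMO pEQ pRA pRG pFR pGR pPS pPB pNU pGQ pSR pVS hN V
    hV h0 fun v hv i hi => by
      have := h1 v hv i
      omega

end Pool.Agent.Helper65.KH
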