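import Pool.Agent.Helper65.KH.Fin

/-!
# Project KH (MP_20ee5e_ag): THEOREM H from the goals
-/

set_option autoImplicit false
set_option linter.unusedSectionVars false

open MeasureTheory Filter
open scoped Pointwise

namespace Pool.Agent.Helper65.KH

open Pool.Agent.Helper70.KN (Convenient newton under extz vol newtonNumber genus)

variable {N : ℕ}

/-- the normalised volumes of the faces -/
noncomputable def En (V : Finset (Fin N → ℕ)) (I : Finset (Fin N)) : ℝ :=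
  ((I.card).factorial : ℝ) * (volume (KK (res V I))).toReal

theorem En_nonneg (V : Finset (Fin N → ℕ)) (I : Finset (Fin N)) : 0 ≤ En V I :=
  mul_nonneg (Nat.cast_nonneg _) ENNReal.toReal_nonneg

theorem newton_eq (hGR : S_GR) (hN : 2 ≤ N) (V : Finset (Fin N → ℕ)) (hV : Convenient V)
    (h0 : (0 : Fin N → ℕ) ∉ V) : newtonNumber V = ∑ I : Finset (Fin N), (-1) ^ (N - I.card) * En V I := by
  unfold newtonNumber
  refine Finset.sum_congr rfl fun I _ => ?_
  rw [vol_res hGR hN V hV h0 I]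
  unfold En
  ring

/-- one scale -/
theorem scale (hSC : S_SC) (hST : S_ST) (hEX : S_EX) (hF2 : S_F2) (hW1 : S_W1) (hW4 : S_W4)
    (hTH : S_TH) (hBJ : S_BJ) (hUB : S_UB) (hVB : S_VB) (hMO : S_MO)
    (hEQ : S_EQ) (hRA : S_RA) (hRG : S_RG) (hFR : S_FR) (hGR : S_GR) (hPS : S_PS) (hPB : S_PB)
    (hNU : S_NU) (hN : 4 ≤ N) (V V' : Finset (Fin N → ℕ)) (q C : ℕ) (hq : 0 < q) (hS : Sc V V' q C)
    (hG : GP V') (hV : Convenient V) (h0 : (0 : Fin N → ℕ) ∉ V)
    (h2 : ∀ v ∈ V, ∀ i, v i ≠ 0 → 2 ≤ v i) :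
    (N.factorial : ℝ) * (q : ℝ) ^ N * genus V ≤
      ∑ I : Finset (Fin N), (-(q : ℝ)) ^ (N - I.card) * En V' I -
        (q : ℝ) ^ N * (1 - 2 ^ N / (N : ℝ) ^ N) := by
  have hN4 : (4 : ℝ) ≤ N := by exact_mod_cast hN
  have hN0 : (0 : ℝ) < N := by linarith
  have hq' : (0 : ℝ) < q := by exact_mod_cast hq
  have hC := Cn_of V hV h0
  have hC' := Sc_Cn V V' q C hq hS hC
  have hT' := Sc_Th V V' q C hS h2
  obtain ⟨n, hn0, hE, h3⟩ := main_AD hTH hBJ hUB hVB hF2 hMO hEX hEQ hRA hRG hFR hGR hPS hPB (Fin N) V'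
    (2 * q) (by omega) hT' hC' hG
  have hmo := moebius (ι := Fin N) (En V') n (q : ℝ) (fun I => by
    unfold En
    rw [hE I]
    push_cast
    rfl)
  rw [Fintype.card_fin] at hmo
  rw [hmo]
  have hi : ∀ i : Fin N, (N.factorial : ℝ) * (((N : ℝ) * q) ^ N * genus V) ≤
      ∑ J : Finset (Fin N), (2 * (q : ℝ)) ^ (N - J.card) * n J * ((insert i J).card : ℝ) ^ N := by
    intro i
    obtain ⟨hfin, hw⟩ := main_W hSC hST hEX hF2 hW1 hW4 (Fin N) V' (2 * q) hC' hT' n h3 i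
    have hg := genus_W hN V V' q C hq hS hV h0 i hfin
    rw [Fintype.card_fin] at hw
    push_cast at hw
    exact (mul_le_mul_of_nonneg_left hg (Nat.cast_nonneg _)).trans hw
  have hsum : (N : ℝ) * ((N.factorial : ℝ) * (((N : ℝ) * q) ^ N * genus V)) ≤
      ∑ J : Finset (Fin N), (2 * (q : ℝ)) ^ (N - J.card) * n J *
        ((J.card : ℝ) ^ (N + 1) + ((N : ℝ) - J.card) * ((J.card : ℝ) + 1) ^ N) := by
    have h4 := Finset.sum_le_sum fun i (_ : i ∈ (Finset.univ : Finset (Fin N))) => hi i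
    rw [Finset.sum_const, Finset.card_univ, Fintype.card_fin, nsmul_eq_mul, Finset.sum_comm] at h4
    refine h4.trans (le_of_eq ?_)
    refine Finset.sum_congr rfl fun J _ => ?_
    rw [← Finset.mul_sum, insert_sum J N (Fintype.card_fin N)]
  -- the terms
  have hterm : ∀ J : Finset (Fin N), (2 * (q : ℝ)) ^ (N - J.card) * n J *
        ((J.card : ℝ) ^ (N + 1) + ((N : ℝ) - J.card) * ((J.card : ℝ) + 1) ^ N) ≤
      (N : ℝ) ^ (N + 1) * ((q : ℝ) ^ (N - J.card) * n J) -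
        if J = ∅ then (q : ℝ) ^ N * ((N : ℝ) ^ (N + 1) - 2 ^ N * N) else 0 := by
    intro J
    have hJ : J.card ≤ N := by simpa using Finset.card_le_univ J
    split_ifs with hJe
    · subst hJe
      rw [Finset.card_empty, hn0]
      simp only [Nat.cast_zero, Nat.sub_zero, zero_add, one_pow, Nat.cast_one, mul_one, sub_zero]
      rw [zero_pow (by omega), mul_pow]
      apply le_of_eq
      ring
    · have h5 := hNU N (N - J.card) hN (Nat.sub_le _ _)
      have h6 : N - (N - J.card) = J.card := by omega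
      rw [h6] at h5
      have h7 : (2 : ℝ) ^ (N - J.card) * ((J.card : ℝ) ^ (N + 1) +
          ((N : ℝ) - J.card) * ((J.card : ℝ) + 1) ^ N) ≤ (N : ℝ) ^ (N + 1) := by
        have h8 : ((N - J.card : ℕ) : ℝ) = (N : ℝ) - J.card := Nat.cast_sub hJ
        rw [← h8]
        exact_mod_cast h5
      have h9 : 0 ≤ (q : ℝ) ^ (N - J.card) * n J := by positivity
      have h10 := mul_le_mul_of_nonneg_left h7 h9
      rw [mul_pow, sub_zero]
      linarith
  have hfin : (N : ℝ) * ((N.factorial : ℝ) * (((N : ℝ) * q) ^ N * genus V)) ≤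
      (N : ℝ) ^ (N + 1) * ∑ J : Finset (Fin N), (q : ℝ) ^ (N - J.card) * n J -
        (q : ℝ) ^ N * ((N : ℝ) ^ (N + 1) - 2 ^ N * N) := by
    refine (hsum.trans (Finset.sum_le_sum fun J _ => hterm J)).trans (le_of_eq ?_)
    rw [Finset.sum_sub_distrib, ← Finset.mul_sum, Finset.sum_ite_eq' Finset.univ ∅]
    simp
  have hNN : (0 : ℝ) < (N : ℝ) ^ (N + 1) := by positivity
  have e1 : (N : ℝ) * ((N.factorial : ℝ) * (((N : ℝ) * q) ^ N * genus V)) =
      (N : ℝ) ^ (N + 1) * ((N.factorial : ℝ) * (q : ℝ) ^ N * genus V) := by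
    rw [mul_pow]
    ring
  have e2 : (q : ℝ) ^ N * ((N : ℝ) ^ (N + 1) - 2 ^ N * N) =
      (N : ℝ) ^ (N + 1) * ((q : ℝ) ^ N * (1 - 2 ^ N / (N : ℝ) ^ N)) := by
    have h11 : (N : ℝ) ^ N ≠ 0 := by positivity
    rw [pow_succ]
    field_simp
  rw [e1, e2, ← mul_sub] at hfin
  exact le_of_mul_le_mul_left hfin hNN

theorem theoremH (hSC : S_SC) (hST : S_ST) (hEX : S_EX) (hF2 : S_F2) (hW1 : S_W1) (hW4 : S_W4)
    (hTH : S_TH) (hBJ : S_BJ) (hUB : S_UB) (hVB : S_VB) (hMO : S_MO)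
    (hEQ : S_EQ) (hRA : S_RA) (hRG : S_RG) (hFR : S_FR) (hGR : S_GR) (hPS : S_PS) (hPB : S_PB)
    (hNU : S_NU) (hGQ : S_GQ) (hSR : S_SR) (hVS : S_VS) (hN : 4 ≤ N) (V : Finset (Fin N → ℕ))
    (hV : Convenient V) (h0 : (0 : Fin N → ℕ) ∉ V) (h2 : ∀ v ∈ V, ∀ i, v i ≠ 0 → 2 ≤ v i) :
    (N.factorial : ℝ) * genus V < newtonNumber V := by
  have hN4 : (4 : ℝ) ≤ N := by exact_mod_cast hN
  have hC := Cn_of V hV h0
  obtain ⟨C, q0, hQ⟩ := hGQ (Fin N) V h0
  obtain ⟨s, hs⟩ : ∃ s : ℝ, s = ∑ I : Finset (Fin N), En V I := ⟨_, rfl⟩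
  have hs0 : 0 ≤ s := by
    rw [hs]
    exact Finset.sum_nonneg fun I _ => En_nonneg V I
  have hδ : 0 < 1 - 2 ^ N / (N : ℝ) ^ N := by
    rw [sub_pos, div_lt_one (by positivity)]
    exact pow_lt_pow_left₀ (by linarith) (by norm_num) (by omega)
  have hlim : Tendsto (fun q : ℕ => ((1 + (C : ℝ) / q) ^ N - 1) * s) atTop (nhds 0) := by
    have h3 : Tendsto (fun q : ℕ => (C : ℝ) / q) atTop (nhds 0) := tendsto_const_div_atTop_nhds_zero_nat _
    have h4 : Tendsto (fun q : ℕ => ((1 + (C : ℝ) / q) ^ N - 1) * s) atTop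
        (nhds (((1 + 0) ^ N - 1) * s)) := (((h3.const_add 1).pow N).sub_const 1).mul_const s
    simpa using h4
  have hev := (hlim.eventually (gt_mem_nhds hδ)).and (eventually_ge_atTop (max q0 1))
  obtain ⟨q, hq1, hq2⟩ := hev.exists
  have hq : 0 < q := lt_of_lt_of_le one_pos ((le_max_right _ _).trans hq2)
  have hq' : (0 : ℝ) < q := by exact_mod_cast hq
  obtain ⟨V', hS, hG⟩ := hQ q ((le_max_left _ _).trans hq2)
  have hsc := scale hSC hST hEX hF2 hW1 hW4 hTH hBJ hUB hVB hMO hEQ hRA hRG hFR hGR hPS hPB hNU hN V V'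
    q C hq hS hG hV h0 h2
  -- compare the volumes
  have hcmp : ∀ I : Finset (Fin N), (-(q : ℝ)) ^ (N - I.card) * En V' I ≤
      (q : ℝ) ^ N * ((-1) ^ (N - I.card) * En V I) + (((q : ℝ) + C) ^ N - (q : ℝ) ^ N) * En V I := by
    intro I
    have hI : I.card ≤ N := by simpa using Finset.card_le_univ I
    obtain ⟨-, -, h5, h6⟩ := hVS I (res V I) (res V' I) q C ((hGR (Fin N) V I).2 hC) hq
      (hSR (Fin N) V V' q C I hq hS)
    rw [Fintype.card_coe] at h5 h6
    have hf : (0 : ℝ) ≤ ((I.card).factorial : ℝ) := Nat.cast_nonneg _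
    have h7 : (q : ℝ) ^ I.card * En V I ≤ En V' I := by
      have := mul_le_mul_of_nonneg_left h5 hf
      unfold En
      linarith
    have h8 : En V' I ≤ ((q : ℝ) + C) ^ I.card * En V I := by
      have := mul_le_mul_of_nonneg_left h6 hf
      unfold En
      linarith
    have hE := En_nonneg V I
    have hqp : 0 ≤ (q : ℝ) ^ (N - I.card) := by positivity
    have e : (q : ℝ) ^ (N - I.card) * (q : ℝ) ^ I.card = (q : ℝ) ^ N := by
      rw [← pow_add]
      congr 1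
      omega
    have e' : (-(q : ℝ)) ^ (N - I.card) = (-1) ^ (N - I.card) * (q : ℝ) ^ (N - I.card) := by
      rw [← mul_pow]
      congr 1
      ring
    have hC0 : (0 : ℝ) ≤ C := Nat.cast_nonneg _
    have h9 : (q : ℝ) ^ (N - I.card) * ((q : ℝ) + C) ^ I.card ≤ ((q : ℝ) + C) ^ N := by
      have h10 : (q : ℝ) ^ (N - I.card) ≤ ((q : ℝ) + C) ^ (N - I.card) :=
        pow_le_pow_left₀ hq'.le (by linarith) _
      calc (q : ℝ) ^ (N - I.card) * ((q : ℝ) + C) ^ I.card ≤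
          ((q : ℝ) + C) ^ (N - I.card) * ((q : ℝ) + C) ^ I.card :=
            mul_le_mul_of_nonneg_right h10 (by positivity)
        _ = ((q : ℝ) + C) ^ N := by
            rw [← pow_add]
            congr 1
            omega
    have h11 := mul_le_mul_of_nonneg_left h7 hqp
    have h12 := mul_le_mul_of_nonneg_left h8 hqp
    have h13 := mul_le_mul_of_nonneg_right h9 hE
    have h14 : (q : ℝ) ^ (N - I.card) * ((q : ℝ) ^ I.card * En V I) = (q : ℝ) ^ N * En V I := by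
      rw [← mul_assoc, e]
    rw [h14] at h11
    rw [e']
    rcases neg_one_pow_eq_or ℝ (N - I.card) with h | h
    · rw [h]
      linarith
    · rw [h]
      have h15 : (q : ℝ) ^ N ≤ ((q : ℝ) + C) ^ N := pow_le_pow_left₀ hq'.le (by linarith) _
      have h16 := mul_le_mul_of_nonneg_right h15 hE
      linarith
  have hsum := Finset.sum_le_sum fun I (_ : I ∈ (Finset.univ : Finset (Finset (Fin N)))) => hcmp I
  rw [Finset.sum_add_distrib, ← Finset.mul_sum, ← Finset.mul_sum, ← hs,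
    ← newton_eq hGR (by omega) V hV h0] at hsum
  have hqN : (0 : ℝ) < (q : ℝ) ^ N := by positivity
  have h17 : (((q : ℝ) + C) ^ N - (q : ℝ) ^ N) * s = (q : ℝ) ^ N * (((1 + (C : ℝ) / q) ^ N - 1) * s) := by
    have h18 : ((q : ℝ) + C) ^ N = (q : ℝ) ^ N * (1 + (C : ℝ) / q) ^ N := by
      rw [← mul_pow]
      congr 1
      field_simp
    rw [h18]
    ring
  rw [h17] at hsum
  have h19 : (q : ℝ) ^ N * ((N.factorial : ℝ) * genus V) ≤ (q : ℝ) ^ N * (newtonNumber V +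
      (((1 + (C : ℝ) / q) ^ N - 1) * s) - (1 - 2 ^ N / (N : ℝ) ^ N)) := by
    linarith
  have h20 := le_of_mul_le_mul_left h19 hqN
  linarith

end Pool.Agent.Helper65.KH
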