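import Pool.Agent.Helper65.KH.Wd
import Pool.Agent.Helper65.KG.Asm

/-!
# Project KH (MP_20ee5e_ag): the link with the definitions of the hand-in
-/

set_option autoImplicit false
set_option linter.unusedSectionVars false

open MeasureTheory

namespace Pool.Agent.Helper65.KH

open Pool.Agent.Helper70.KN (Convenient newton under extz vol newtonNumber genus)

theorem mem_res {ι : Type} [Fintype ι] [DecidableEq ι] (V : Finset (ι → ℕ)) (I : Finset ι)
    (u : I → ℕ) : u ∈ res V I ↔ ∃ v ∈ V, (∀ j, j ∉ I → v j = 0) ∧ (fun i : I => v i) = u := by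
  unfold res
  rw [Finset.mem_image]
  constructor
  · rintro ⟨v, hv, h⟩
    exact ⟨v, (Finset.mem_filter.1 hv).1, (Finset.mem_filter.1 hv).2, h⟩
  · rintro ⟨v, hv, h, h'⟩
    exact ⟨v, Finset.mem_filter.2 ⟨hv, h⟩, h'⟩

variable {N : ℕ}

theorem Cn_of (V : Finset (Fin N → ℕ)) (hV : Convenient V) (h0 : (0 : Fin N → ℕ) ∉ V) : Cn V :=
  ⟨h0, hV⟩

theorem under_eq (hN : 2 ≤ N) (V : Finset (Fin N → ℕ)) (hV : Convenient V)
    (h0 : (0 : Fin N → ℕ) ∉ V) : under V = KK V := by
  have hT : Pool.Agent.Helper70.KN.Thick V 1 := ⟨hV, one_pos, h0, fun v hv i hi => by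
    exact_mod_cast Nat.one_le_iff_ne_zero.2 hi⟩
  obtain ⟨-, -, -, -, -, -, hnew⟩ := Pool.Agent.Helper65.KG.pCT N V 1 hN hT
  have hpos := LL_nonneg V (Cn_of V hV h0)
  ext x
  unfold under
  rw [hnew]
  constructor
  · rintro ⟨hx, hx'⟩
    have h1 : ∃ w ∈ Pool.Agent.Helper65.KG.Lc V 1, Pool.Agent.Helper70.KN.dt w x < 1 := by
      by_contra hno
      push Not at hno
      exact hx' ⟨hx, hno⟩
    obtain ⟨w, hw, hwx⟩ := h1
    exact ⟨hx, w, hw.2, hwx⟩
  · rintro ⟨hx, w, hw, hwx⟩
    refine ⟨hx, fun h => ?_⟩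
    have h1 : (fun j => min (w j) 1) ∈ Pool.Agent.Helper65.KG.Lc V 1 := by
      refine ⟨fun j => ⟨le_min (hpos w hw j) zero_le_one, ?_⟩, fun v hv => ?_⟩
      · rw [div_one]
        exact min_le_right _ _
      · have hnn : ∀ j ∈ Finset.univ, 0 ≤ min (w j) 1 * Pool.Agent.Helper65.KG.cv v j := fun j _ =>
          mul_nonneg (le_min (hpos w hw j) zero_le_one) (Nat.cast_nonneg _)
        by_cases hex : ∃ j, v j ≠ 0 ∧ 1 < w j
        · obtain ⟨j, hj, hj'⟩ := hex
          refine le_trans ?_ (Finset.single_le_sum hnn (Finset.mem_univ j))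
          rw [min_eq_right hj'.le, one_mul]
          unfold Pool.Agent.Helper65.KG.cv
          exact_mod_cast Nat.one_le_iff_ne_zero.2 hj
        · push Not at hex
          have h2 := hw v hv
          refine h2.trans (le_of_eq ?_)
          unfold dt Pool.Agent.Helper70.KN.dt
          refine Finset.sum_congr rfl fun j _ => ?_
          unfold cv Pool.Agent.Helper65.KG.cv
          by_cases hj : v j = 0
          · rw [hj]
            simp
          · show _ = min (w j) 1 * (v j : ℝ)
            rw [min_eq_left (hex j hj)]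
    have h3 := h.2 _ h1
    have h4 : Pool.Agent.Helper70.KN.dt (fun j => min (w j) 1) x ≤ dt w x :=
      Finset.sum_le_sum fun j _ => mul_le_mul_of_nonneg_right (min_le_left _ _) (hx j)
    linarith

theorem sum_face (I : Finset (Fin N)) (F : Fin N → ℝ) (hF : ∀ j, j ∉ I → F j = 0) :
    ∑ j, F j = ∑ i : I, F i := by
  rw [Finset.sum_coe_sort I F]
  exact (Finset.sum_subset (Finset.subset_univ I) fun j _ hj => hF j hj).symm

theorem face_eq (hGR : S_GR) (hN : 2 ≤ N) (V : Finset (Fin N → ℕ)) (hV : Convenient V)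
    (h0 : (0 : Fin N → ℕ) ∉ V) (I : Finset (Fin N)) :
    {y : I → ℝ | extz I y ∈ under V} = KK (res V I) := by
  have hC := Cn_of V hV h0
  have hposI := LL_nonneg (res V I) ((hGR (Fin N) V I).2 hC)
  rw [under_eq hN V hV h0]
  have hin : ∀ (y : I → ℝ) (i : I), extz I y (i : Fin N) = y i := by
    intro y i
    unfold extz
    rw [dif_pos i.2]
  have hout : ∀ (y : I → ℝ) (j : Fin N), j ∉ I → extz I y j = 0 := by
    intro y j hj
    unfold extz
    rw [dif_neg hj]
  ext y
  constructor
  · rintro ⟨hx, w, hw, hwx⟩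
    refine ⟨fun i => ?_, fun i => w i, ?_, ?_⟩
    · have := hx (i : Fin N)
      rw [hin] at this
      exact this
    · intro u hu
      obtain ⟨v, hvV, hv, rfl⟩ := (mem_res V I u).1 hu
      have h1 := hw v hvV
      refine h1.trans (le_of_eq ?_)
      unfold dt cv
      exact sum_face I (fun j => w j * (v j : ℝ)) fun j hj => by
        show w j * (v j : ℝ) = 0
        rw [hv j hj]
        simp
    · refine lt_of_eq_of_lt ?_ hwx
      unfold dt
      rw [sum_face I (fun j => w j * extz I y j) fun j hj => by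
        show w j * extz I y j = 0
        rw [hout y j hj, mul_zero]]
      exact Finset.sum_congr rfl fun i _ => by rw [hin]
  · rintro ⟨hy, w, hw, hwy⟩
    refine ⟨fun j => ?_, fun j => if h : j ∈ I then w ⟨j, h⟩ else 1, ?_, ?_⟩
    · by_cases hj : j ∈ I
      · have := hin y ⟨j, hj⟩
        show (0 : ℝ) ≤ _
        rw [this]
        exact hy _
      · show (0 : ℝ) ≤ _
        rw [hout y j hj]
    · intro v hv
      have hnn : ∀ j ∈ Finset.univ, 0 ≤ (if h : j ∈ I then w ⟨j, h⟩ else 1) * cv v j := by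
        intro j _
        refine mul_nonneg ?_ (Nat.cast_nonneg _)
        split_ifs with h
        · exact hposI w hw _
        · exact zero_le_one
      by_cases hsup : ∀ j, j ∉ I → v j = 0
      · have h1 := hw (fun i : I => v i) ((mem_res V I _).2 ⟨v, hv, hsup, rfl⟩)
        refine h1.trans (le_of_eq ?_)
        unfold dt
        rw [sum_face I (fun j => (if h : j ∈ I then w ⟨j, h⟩ else 1) * cv v j) fun j hj => by
          show _ * cv v j = 0
          unfold cv
          rw [hsup j hj]
          simp]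
        refine Finset.sum_congr rfl fun i _ => ?_
        rw [dif_pos i.2]
        rfl
      · push Not at hsup
        obtain ⟨j, hj, hvj⟩ := hsup
        refine le_trans ?_ (Finset.single_le_sum hnn (Finset.mem_univ j))
        rw [dif_neg hj, one_mul]
        unfold cv
        exact_mod_cast Nat.one_le_iff_ne_zero.2 hvj
    · refine lt_of_eq_of_lt ?_ hwy
      unfold dt
      rw [sum_face I (fun j => (if h : j ∈ I then w ⟨j, h⟩ else 1) * extz I y j) fun j hj => by
        show _ * extz I y j = 0
        rw [hout y j hj, mul_zero]]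
      refine Finset.sum_congr rfl fun i _ => ?_
      rw [dif_pos i.2, hin]

theorem vol_res (hGR : S_GR) (hN : 2 ≤ N) (V : Finset (Fin N → ℕ)) (hV : Convenient V)
    (h0 : (0 : Fin N → ℕ) ∉ V) (I : Finset (Fin N)) : vol V I = (volume (KK (res V I))).toReal := by
  unfold vol
  rw [face_eq hGR hN V hV h0 I]

end Pool.Agent.Helper65.KH
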