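import Pool.Agent.Helper65.KH.AD
import Pool.Agent.Helper65.KH.KR

/-!
# Project KH (MP_20ee5e_ag): end of the proof
-/

set_option autoImplicit false
set_option linter.unusedSectionVars false

open MeasureTheory
open scoped Pointwise

namespace Pool.Agent.Helper65.KH

open Pool.Agent.Helper70.KN (Convenient newton under extz vol newtonNumber genus)

/-- the binomial theorem over the sets between `J` and everything -/
theorem binom_above {ι : Type} [Fintype ι] [DecidableEq ι] (J : Finset ι) (a b : ℝ) :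
    ∑ I ∈ Finset.univ.filter (fun I => J ⊆ I), a ^ (I.card - J.card) * b ^ (Fintype.card ι - I.card) =
      (a + b) ^ (Fintype.card ι - J.card) := by
  have h1 := Finset.sum_pow_mul_eq_add_pow a b (Jᶜ)
  rw [Finset.card_compl] at h1
  rw [← h1]
  refine Finset.sum_bij' (fun I _ => I \ J) (fun T _ => T ∪ J) ?_ ?_ ?_ ?_ ?_
  · intro I hI
    rw [Finset.mem_powerset]
    intro x hx
    rw [Finset.mem_compl]
    exact (Finset.mem_sdiff.1 hx).2
  · intro T hT
    rw [Finset.mem_filter]
    exact ⟨Finset.mem_univ _, Finset.subset_union_right⟩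
  · intro I hI
    rw [Finset.mem_filter] at hI
    exact Finset.sdiff_union_of_subset hI.2
  · intro T hT
    rw [Finset.mem_powerset] at hT
    rw [Finset.union_sdiff_right]
    rw [Finset.sdiff_eq_self_iff_disjoint]
    rw [Finset.disjoint_left]
    intro x hx hxJ
    exact (Finset.mem_compl.1 (hT hx)) hxJ
  · intro I hI
    rw [Finset.mem_filter] at hI
    have h2 : (I \ J).card = I.card - J.card := Finset.card_sdiff_of_subset hI.2
    have h3 : I.card ≤ Fintype.card ι := Finset.card_le_univ I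
    have h4 : J.card ≤ I.card := Finset.card_le_card hI.2
    rw [h2]
    congr 2
    omega

/-- Möbius inversion, in the form used -/
theorem moebius {ι : Type} [Fintype ι] [DecidableEq ι] (E : Finset ι → ℝ) (n : Finset ι → ℕ) (q : ℝ)
    (hE : ∀ I, E I = ∑ J ∈ I.powerset, (2 * q) ^ (I.card - J.card) * n J) :
    ∑ I : Finset ι, (-q) ^ (Fintype.card ι - I.card) * E I =
      ∑ J : Finset ι, q ^ (Fintype.card ι - J.card) * n J := by
  have h1 : ∀ I : Finset ι, (-q) ^ (Fintype.card ι - I.card) * E I =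
      ∑ J : Finset ι, if J ⊆ I then (2 * q) ^ (I.card - J.card) * (-q) ^ (Fintype.card ι - I.card) * n J
        else 0 := by
    intro I
    rw [hE I, Finset.mul_sum, ← Finset.sum_filter]
    refine Finset.sum_congr ?_ fun J _ => by ring
    ext J
    simp
  rw [Finset.sum_congr rfl fun I _ => h1 I, Finset.sum_comm]
  refine Finset.sum_congr rfl fun J _ => ?_
  have h2 := binom_above J (2 * q) (-q)
  have h3 : 2 * q + -q = q := by ring
  rw [h3] at h2
  rw [← h2, Finset.sum_mul, Finset.sum_filter]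

theorem insert_sum {ι : Type} [Fintype ι] [DecidableEq ι] (J : Finset ι) (N : ℕ)
    (hN : Fintype.card ι = N) :
    ∑ i : ι, ((insert i J).card : ℝ) ^ N = (J.card : ℝ) ^ (N + 1) +
      ((N : ℝ) - J.card) * ((J.card : ℝ) + 1) ^ N := by
  have h1 : ∀ i : ι, ((insert i J).card : ℝ) ^ N =
      if i ∈ J then (J.card : ℝ) ^ N else ((J.card : ℝ) + 1) ^ N := by
    intro i
    split_ifs with h
    · rw [Finset.insert_eq_self.2 h]
    · rw [Finset.card_insert_of_notMem h]
      push_cast
      rfl
  rw [Finset.sum_congr rfl fun i _ => h1 i, Finset.sum_ite, Finset.sum_const, Finset.sum_const]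
  have h2 : (Finset.univ.filter fun i => i ∈ J) = J := by
    ext i
    simp
  have h3 : ((Finset.univ.filter fun i => i ∉ J).card : ℝ) = (N : ℝ) - J.card := by
    have h4 : (Finset.univ.filter fun i => i ∉ J) = Jᶜ := by
      ext i
      simp
    rw [h4, Finset.card_compl, hN, Nat.cast_sub (hN ▸ Finset.card_le_univ J)]
  rw [h2, nsmul_eq_mul, nsmul_eq_mul, h3]
  ring

variable {N : ℕ}

theorem Sc_Cn (V V' : Finset (Fin N → ℕ)) (q C : ℕ) (hq : 0 < q) (hS : Sc V V' q C) (hC : Cn V) :
    Cn V' := by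
  refine ⟨fun h => ?_, fun i => ?_⟩
  · obtain ⟨v, hv, m, hm, -, he⟩ := hS.2 _ h
    apply hC.1
    have : v = 0 := by
      funext j
      have h1 := congrFun he j
      have h2 : m * v j = 0 := by
        simpa using h1.symm
      rcases Nat.mul_eq_zero.1 h2 with h3 | h3
      · omega
      · exact h3
    rw [← this]
    exact hv
  · obtain ⟨m, hm, hmV⟩ := hC.2 i
    obtain ⟨k, hk, -, hkV⟩ := hS.1 _ hmV
    refine ⟨k * m, Nat.mul_pos (by omega) hm, ?_⟩
    have : (Pi.single i (k * m) : Fin N → ℕ) = k • (Pi.single i m : Fin N → ℕ) := by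
      funext j
      by_cases hj : j = i
      · subst hj
        simp
      · simp [Pi.single_eq_of_ne hj]
    rw [this]
    exact hkV

theorem Sc_Th (V V' : Finset (Fin N → ℕ)) (q C : ℕ) (hS : Sc V V' q C)
    (h2 : ∀ v ∈ V, ∀ i, v i ≠ 0 → 2 ≤ v i) : Th V' (2 * q) := by
  intro v' hv' i hi
  obtain ⟨v, hv, m, hm, -, rfl⟩ := hS.2 _ hv'
  have h3 : v i ≠ 0 := by
    intro h
    apply hi
    simp [h]
  have h4 := h2 v hv i h3
  show 2 * q ≤ m * v i
  calc 2 * q = q * 2 := by ring
    _ ≤ m * v i := Nat.mul_le_mul hm h4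

/-- the lattice points against the scaled region -/
theorem genus_W (hN : 4 ≤ N) (V V' : Finset (Fin N → ℕ)) (q C : ℕ) (hq : 0 < q) (hS : Sc V V' q C)
    (hV : Convenient V) (h0 : (0 : Fin N → ℕ) ∉ V) (i : Fin N)
    (hfin : volume {y : Fin N → ℝ | 0 ≤ y ∧ y ∉ PP V' (2 * q) i} ≠ ⊤) :
    ((N : ℝ) * q) ^ N * genus V ≤ (volume {y : Fin N → ℝ | 0 ≤ y ∧ y ∉ PP V' (2 * q) i}).toReal := by
  have hN4 : (4 : ℝ) ≤ N := by exact_mod_cast hN
  have hq' : (0 : ℝ) < q := by exact_mod_cast hq
  have hJE := Pool.Agent.Helper70.KN.pJE N V hV i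
  obtain ⟨A, hA⟩ : ∃ A : Set (Fin N → ℝ), A = {x | 0 ≤ x ∧ x ∉ newton V ∧ ∀ j, j ≠ i → 1 / 2 ≤ x j} :=
    ⟨_, rfl⟩
  rw [← hA] at hJE
  obtain ⟨c, hc⟩ : ∃ c : Fin N → ℝ, c = fun j => if j = i then 0 else 2 * (q : ℝ) := ⟨_, rfl⟩
  have hsub : ((N : ℝ) * q) • A ⊆
      (fun z => z + (-c)) ⁻¹' {y : Fin N → ℝ | 0 ≤ y ∧ y ∉ PP V' (2 * q) i} := by
    rintro _ ⟨x, hx, rfl⟩
    rw [hA] at hx
    obtain ⟨hx0, hxn, hx1⟩ := hx
    have hxu : x ∈ KK V := by
      rw [← under_eq (by omega) V hV h0]
      exact ⟨hx0, hxn⟩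
    obtain ⟨-, w, hw, hwx⟩ := hxu
    refine ⟨fun j => ?_, fun h => ?_⟩
    · show (0 : ℝ) ≤ (N * q) * x j + -(c j)
      rw [hc]
      by_cases hj : j = i
      · simp only [hj, if_true]
        have := hx0 i
        have h1 : (0 : ℝ) ≤ x i := this
        have : 0 ≤ (N : ℝ) * q * x i := by positivity
        linarith
      · simp only [hj, if_false]
        have h1 := hx1 j hj
        have h2 : (N : ℝ) * q * (1 / 2) ≤ N * q * x j := mul_le_mul_of_nonneg_left h1 (by positivity)
        nlinarith
    · have hw' : (fun j => w j / q) ∈ LL V' := by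
        intro v' hv'
        obtain ⟨v, hv, m, hm, -, rfl⟩ := hS.2 _ hv'
        have h1 := hw v hv
        have e : dt (fun j => w j / q) (cv (m • v)) = (m / q : ℝ) * dt w (cv v) := by
          unfold dt cv
          rw [Finset.mul_sum]
          refine Finset.sum_congr rfl fun j _ => ?_
          simp only [Pi.smul_apply, smul_eq_mul]
          push_cast
          ring
        rw [e]
        have hm' : (q : ℝ) ≤ m := by exact_mod_cast hm
        have h2 : (1 : ℝ) ≤ m / q := by rwa [one_le_div hq']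
        nlinarith
      have h1 := h.2 _ hw'
      rw [Fintype.card_fin] at h1
      have e : ∑ j, (w j / q) * ((((N : ℝ) * q) • x + (-c)) j + if j = i then 0 else ((2 * q : ℕ) : ℝ)) =
          N * dt w x := by
        unfold dt
        rw [Finset.mul_sum]
        refine Finset.sum_congr rfl fun j _ => ?_
        rw [hc]
        simp only [Pi.add_apply, Pi.smul_apply, smul_eq_mul, Pi.neg_apply]
        push_cast
        by_cases hj : j = i
        · simp only [hj, if_true]
          field_simp
          ring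
        · simp only [hj, if_false]
          field_simp
          ring
      rw [e] at h1
      nlinarith
  have h1 : volume (((N : ℝ) * q) • A) ≤ volume {y : Fin N → ℝ | 0 ≤ y ∧ y ∉ PP V' (2 * q) i} := by
    refine (measure_mono hsub).trans (le_of_eq ?_)
    exact measure_preimage_add_right volume (-c) _
  rw [Measure.addHaar_smul, Module.finrank_fintype_fun_eq_card, Fintype.card_fin] at h1
  have h2 := ENNReal.toReal_mono hfin h1
  rw [ENNReal.toReal_mul, ENNReal.toReal_ofReal (abs_nonneg _), abs_of_nonneg (by positivity)] at h2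
  exact (mul_le_mul_of_nonneg_left hJE (by positivity)).trans h2

end Pool.Agent.Helper65.KH
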