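import Pool.Agent.Helper65.KH.Goals

/-!
# Project KH (MP_20ee5e_ag): the volume inequality from the words
-/

set_option autoImplicit false
set_option linter.unusedSectionVars false

open MvPolynomial MeasureTheory

namespace Pool.Agent.Helper65.KH

theorem LL_nonneg {ι : Type} [Fintype ι] [DecidableEq ι] (V : Finset (ι → ℕ)) (hC : Cn V) :
    ∀ w ∈ LL V, ∀ i, 0 ≤ w i := by
  intro w hw i
  obtain ⟨m, hm, hmV⟩ := hC.2 i
  have h6 := hw _ hmV
  unfold dt cv at h6
  rw [Finset.sum_eq_single i] at h6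
  · rw [Pi.single_eq_same] at h6
    by_contra hneg
    push Not at hneg
    have : (0 : ℝ) < m := by exact_mod_cast hm
    nlinarith
  · intro j _ hj
    rw [Pi.single_eq_of_ne hj]
    simp
  · intro h
    exact absurd (Finset.mem_univ i) h

theorem main_W (hSC : S_SC) (hST : S_ST) (hEX : S_EX) (hF2 : S_F2) (hW1 : S_W1) (hW4 : S_W4)
    (ι : Type) [Fintype ι] [DecidableEq ι] (V : Finset (ι → ℕ)) (D : ℕ) (hC : Cn V) (hT : Th V D)
    (n : Finset ι → ℕ)
    (h3 : ∀ (B : Finset ι) (M : ℕ), dq (idl fun r => if r ∈ B then gp V D r else Lp V r) M ≤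
        ∑ J ∈ Finset.univ.filter (fun J => B ⊆ J), D ^ (Fintype.card ι - J.card) * n J) (i0 : ι) :
    volume {y : ι → ℝ | 0 ≤ y ∧ y ∉ PP V D i0} ≠ ⊤ ∧
    ((Fintype.card ι).factorial : ℝ) * (volume {y : ι → ℝ | 0 ≤ y ∧ y ∉ PP V D i0}).toReal ≤
      ∑ J : Finset ι, (D : ℝ) ^ (Fintype.card ι - J.card) * n J *
        ((insert i0 J).card : ℝ) ^ Fintype.card ι := by
  obtain ⟨d, hd⟩ : ∃ d : (ι → ι) → ℕ, d = fun φ =>
      ∑ J ∈ Finset.univ.filter (fun J => (Finset.univ.image φ).erase i0 ⊆ J),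
        D ^ (Fintype.card ι - J.card) * n J := ⟨_, rfl⟩
  obtain ⟨R, hR⟩ : ∃ R : (ι → ι) → ι → ι × ι × ι → MvPolynomial ι ℚ, R = fun φ j k =>
      if k.1 = j then (if k.2.1 = φ j then el V D i0 (φ j) k.2.2 else 0) else 0 := ⟨_, rfl⟩
  have hRl : ∀ (t : ι × ι × ι → ℚ) (φ : ι → ι) (j : ι),
      ∑ k, t k • R φ j k = lett V D i0 t j (φ j) := by
    intro t φ j
    rw [hR, Fintype.sum_prod_type]
    unfold lett
    rw [Finset.sum_eq_single j]
    · rw [Fintype.sum_prod_type, Finset.sum_eq_single (φ j)]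
      · simp
      · intro b _ hb
        simp [hb]
      · intro h
        exact absurd (Finset.mem_univ _) h
    · intro b _ hb
      simp [hb]
    · intro h
      exact absurd (Finset.mem_univ _) h
  choose t0 ht0 using fun φ : ι → ι => hW1 ι V D i0 φ
  obtain ⟨M0, hM0⟩ : ∃ M0, M0 = Finset.univ.sup d + 1 := ⟨_, rfl⟩
  obtain ⟨t, ht⟩ := hSC ι (ι × ι × ι) (ι → ι) R M0 d t0 (by
    intro φ
    simp only [hRl]
    rw [ht0 φ, hd]
    exact h3 _ _)
  have ht' : ∀ φ M, dq (idl fun j => lett V D i0 t j (φ j)) M ≤ d φ := by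
    intro φ M
    have h4 := ht φ
    simp only [hRl] at h4
    refine hST ι _ M0 (d φ) h4 ?_ M
    rw [hM0]
    exact Nat.lt_succ_of_le (Finset.le_sup (f := d) (Finset.mem_univ φ))
  have hH : ∀ M, dq (idl fun j => ∏ l, lett V D i0 t j l) M ≤ ∑ φ, d φ := fun M =>
    (hEX ι ι (fun j l => lett V D i0 t j l) M).trans (Finset.sum_le_sum fun φ _ => ht' φ M)
  have hpos := LL_nonneg V hC
  have key := hF2 ι (fun j => ∏ l, lett V D i0 t j l) (PP V D i0) (∑ φ, d φ) ?_ ?_
    (fun j p hp => hW4 ι V D i0 t hC hT j p hp) hH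
  · have hfac : (((Fintype.card ι).factorial : ℕ) : ENNReal) ≠ 0 := by
      exact_mod_cast (Nat.factorial_pos _).ne'
    have hfin : volume {y : ι → ℝ | 0 ≤ y ∧ y ∉ PP V D i0} ≠ ⊤ := by
      intro htop
      rw [htop, ENNReal.mul_top hfac] at key
      exact absurd key (not_le.2 (ENNReal.natCast_lt_top _))
    refine ⟨hfin, ?_⟩
    have h7 := ENNReal.toReal_mono (ENNReal.natCast_ne_top _) key
    rw [ENNReal.toReal_mul, ENNReal.toReal_natCast, ENNReal.toReal_natCast] at h7
    refine h7.trans (le_of_eq ?_)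
    have h8 : ∑ φ, d φ = ∑ J : Finset ι, D ^ (Fintype.card ι - J.card) * n J *
        ((insert i0 J).card) ^ Fintype.card ι := by
      rw [hd]
      simp only [Finset.sum_filter]
      rw [Finset.sum_comm]
      refine Finset.sum_congr rfl fun J _ => ?_
      rw [← Finset.sum_filter, Finset.sum_const, smul_eq_mul, mul_comm]
      congr 1
      have h9 : Finset.univ.filter (fun φ : ι → ι => (Finset.univ.image φ).erase i0 ⊆ J) =
          Fintype.piFinset fun _ => insert i0 J := by
        ext φ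
        rw [Finset.mem_filter, Fintype.mem_piFinset]
        constructor
        · rintro ⟨-, h⟩ j
          rw [Finset.mem_insert]
          by_cases h10 : φ j = i0
          · exact Or.inl h10
          · exact Or.inr (h (Finset.mem_erase.2 ⟨h10, Finset.mem_image.2 ⟨j, Finset.mem_univ _, rfl⟩⟩))
        · intro h
          refine ⟨Finset.mem_univ _, fun b hb => ?_⟩
          obtain ⟨h11, h12⟩ := Finset.mem_erase.1 hb
          obtain ⟨j, -, rfl⟩ := Finset.mem_image.1 h12
          rcases Finset.mem_insert.1 (h j) with h13 | h13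
          · exact absurd h13 h11
          · exact h13
      rw [h9, Fintype.card_piFinset, Finset.prod_const, Finset.card_univ]
    rw [h8]
    push_cast
    rfl
  · -- convex
    intro x hx y hy a b ha hb hab
    refine ⟨add_nonneg (smul_nonneg ha hx.1) (smul_nonneg hb hy.1), fun w hw => ?_⟩
    have e2 := mul_le_mul_of_nonneg_left (hx.2 w hw) ha
    have e3 := mul_le_mul_of_nonneg_left (hy.2 w hw) hb
    have e1 : ∑ i, w i * ((a • x + b • y) i + if i = i0 then 0 else (D : ℝ)) =
        a * ∑ i, w i * (x i + if i = i0 then 0 else (D : ℝ)) +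
          b * ∑ i, w i * (y i + if i = i0 then 0 else (D : ℝ)) := by
      rw [Finset.mul_sum, Finset.mul_sum, ← Finset.sum_add_distrib]
      refine Finset.sum_congr rfl fun i _ => ?_
      simp only [Pi.add_apply, Pi.smul_apply, smul_eq_mul]
      have : ∀ c : ℝ, c = (a + b) * c := fun c => by rw [hab, one_mul]
      rw [this (if i = i0 then 0 else (D : ℝ))]
      rw [hab]
      have h14 : (if i = i0 then 0 else (D : ℝ)) = a * (if i = i0 then 0 else (D : ℝ)) +
          b * (if i = i0 then 0 else (D : ℝ)) := by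
        rw [← add_mul, hab, one_mul]
      linear_combination w i * h14
    rw [e1]
    have e4 : (Fintype.card ι : ℝ) = a * (Fintype.card ι : ℝ) + b * (Fintype.card ι : ℝ) := by
      rw [← add_mul, hab, one_mul]
    rw [e4]
    linarith
  · intro x hx y hxy
    refine ⟨hx.1.trans hxy, fun w hw => (hx.2 w hw).trans ?_⟩
    refine Finset.sum_le_sum fun i _ => mul_le_mul_of_nonneg_left ?_ (hpos w hw i)
    have := hxy i
    linarith

end Pool.Agent.Helper65.KH
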